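import Pool.Agent.Lib.MP_e326dc_an.D.Defs

/-!
# MP_e326dc_an, part D: uniform averages at a tame point
-/

set_option autoImplicit false

open Filter Topology
open scoped ComplexConjugate

namespace MP_e326dc_an

section ave

theorem avg_box_add {ι E : Type*} [Fintype ι] [DecidableEq ι] [AddCommGroup E] [Module ℝ E]
    (M : ι → ℤ) (L : ι → ℕ) (v₀ : ι → ℤ) (f : (ι → ℤ) → E) :
    avg (box M L) (fun v => f (v + v₀)) = avg (box (M + v₀) L) f := by
  refine avg_bij _ _ (fun v => v + v₀) (fun v => v - v₀) ?_ ?_ ?_ ?_ ?_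
  · intro v hv
    simp only [box, Fintype.mem_piFinset, Finset.mem_Ico, Pi.add_apply] at hv ⊢
    intro i
    have := hv i
    omega
  · intro v hv
    simp only [box, Fintype.mem_piFinset, Finset.mem_Ico, Pi.add_apply, Pi.sub_apply] at hv ⊢
    intro i
    have := hv i
    omega
  · intro v _
    exact add_sub_cancel_right v v₀
  · intro v _
    exact sub_add_cancel v v₀
  · intro v _
    rfl

theorem UCauchy.exists_lim {ι : Type*} [Fintype ι] [DecidableEq ι] {f : (ι → ℤ) → ℂ}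
    (h : UCauchy f) : ∃ a : ℂ, UTendsto f a := by
  have hc : CauchySeq (fun n : ℕ => avg (box (0 : ι → ℤ) (fun _ => n)) f) := by
    rw [Metric.cauchySeq_iff]
    intro ε hε
    obtain ⟨N, hN⟩ := h (ε / 2) (by linarith)
    refine ⟨N, fun m hm n hn => ?_⟩
    rw [dist_eq_norm]
    exact (hN _ _ _ _ (fun _ => hm) (fun _ => hn)).trans_lt (by linarith)
  obtain ⟨a, ha⟩ := cauchySeq_tendsto_of_complete hc
  refine ⟨a, fun ε hε => ?_⟩
  obtain ⟨N, hN⟩ := h (ε / 2) (by linarith)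
  refine ⟨N, fun M L hL => ?_⟩
  rw [Metric.tendsto_atTop] at ha
  obtain ⟨N', hN'⟩ := ha (ε / 2) (by linarith)
  have h1 := hN M 0 L (fun _ => max N N') hL (fun _ => le_max_left _ _)
  have h2 := hN' (max N N') (le_max_right _ _)
  rw [dist_eq_norm] at h2
  calc ‖avg (box M L) f - a‖
      = ‖(avg (box M L) f - avg (box 0 fun _ => max N N') f) +
          (avg (box 0 fun _ => max N N') f - a)‖ := by congr 1; abel
    _ ≤ ‖avg (box M L) f - avg (box 0 fun _ => max N N') f‖ +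
          ‖avg (box 0 fun _ => max N N') f - a‖ := norm_add_le _ _
    _ ≤ ε / 2 + ε / 2 := add_le_add h1 h2.le
    _ = ε := by ring

theorem TameAlg.exists_wlim {W : Set (ℤ → ℂ)} (hW : TameAlg W) {φ : ℤ → ℂ} (hφ : φ ∈ W) :
    ∃ a : ℂ, WTendsto φ a := by
  have h := hW.conv (Fin 0) (fun _ => φ) (fun _ => hφ)
  have hu : (Finset.univ : Finset (Finset (Fin 0))) = {∅} := by decide
  have he : (fun v : Option (Fin 0) → ℤ =>
      ∏ S : Finset (Fin 0), φ (expo (v none) (fun i => v (some i)) S)) = fun v => φ (v none) := by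
    funext v
    rw [hu, Finset.prod_singleton]
    simp [expo]
  rw [he] at h
  obtain ⟨a, ha⟩ := h.exists_lim
  refine ⟨a, fun ε hε => ?_⟩
  obtain ⟨N, hN⟩ := ha ε hε
  refine ⟨N, fun M L hL => ?_⟩
  have h1 := hN (fun _ => M) (fun _ => L) (fun _ => hL)
  rw [avg_box_option] at h1
  have h2 : ∀ n : ℤ, avg (box (fun _ : Fin 0 => M) (fun _ : Fin 0 => L))
      (fun h : Fin 0 → ℤ => φ ((fun o : Option (Fin 0) => o.elim n h) none)) = φ n := by
    intro n
    refine avg_const ?_ (φ n)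
    exact ⟨fun i => i.elim0, by rw [box, Fintype.mem_piFinset]; exact fun i => i.elim0⟩
  simp only [h2] at h1
  exact h1

/-- D4: cubic averages at a tame point -/
theorem TamePt.cube {W : Set (ℤ → ℂ)} (hW : TameAlg W) {Y : DSys} {y : Y.X} (hy : TamePt W Y y)
    (ι : Type) [Fintype ι] [DecidableEq ι] (F : Finset ι → C(Y.X, ℂ)) :
    ∃ a : ℂ, ∀ ε : ℝ, 0 < ε → ∃ N : ℕ, ∀ c ∈ cubOrb Y y ι, ∀ (M : Option ι → ℤ) (L : Option ι → ℕ),
      (∀ i, N ≤ L i) → ‖avg (box M L) (fun v => ∏ S, F S (cact Y.T v c S)) - a‖ ≤ ε := by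
  obtain ⟨a, ha⟩ := (hW.conv ι (fun S n => F S ((Y.T ^ n) y)) (fun S => hy (F S))).exists_lim
  refine ⟨a, fun ε hε => ?_⟩
  obtain ⟨N, hN⟩ := ha ε hε
  refine ⟨N, fun c hc M L hL => ?_⟩
  have hcl : IsClosed {c : Finset ι → Y.X |
      ‖avg (box M L) (fun v => ∏ S, F S (cact Y.T v c S)) - a‖ ≤ ε} := by
    refine isClosed_le ?_ continuous_const
    refine Continuous.norm (Continuous.sub ?_ continuous_const)
    unfold avg
    refine Continuous.const_smul ?_ _
    refine continuous_finsetSum _ fun v _ => continuous_finsetProd _ fun S _ => ?_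
    exact (F S).continuous.comp ((continuous_apply S).comp (continuous_cact Y.T v))
  have hsub : (Set.range fun v : Option ι → ℤ => cact Y.T v (fun _ => y)) ⊆
      {c : Finset ι → Y.X |
        ‖avg (box M L) (fun v => ∏ S, F S (cact Y.T v c S)) - a‖ ≤ ε} := by
    rintro _ ⟨v₀, rfl⟩
    simp only [Set.mem_ofPred_eq]
    have e : (fun v : Option ι → ℤ => ∏ S, F S (cact Y.T v (cact Y.T v₀ (fun _ => y)) S)) =
        fun v => (fun w : Option ι → ℤ =>
          ∏ S : Finset ι, F S ((Y.T ^ expo (w none) (fun i => w (some i)) S) y)) (v + v₀) := by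
      funext v
      rw [← cact_add]
      rfl
    rw [e, avg_box_add M L v₀ (fun w : Option ι → ℤ =>
          ∏ S : Finset ι, F S ((Y.T ^ expo (w none) (fun i => w (some i)) S) y))]
    exact hN (M + v₀) L hL
  exact closure_minimal hsub hcl hc

/-- window averages at a tame point -/
theorem TamePt.win {W : Set (ℤ → ℂ)} (hW : TameAlg W) {Y : DSys} {y : Y.X} (hy : TamePt W Y y)
    (F : C(Y.X, ℂ)) :
    ∃ a : ℂ, ∀ ε : ℝ, 0 < ε → ∃ N : ℕ, ∀ z ∈ orbC Y.T y, ∀ (M : ℤ) (L : ℕ),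
      N ≤ L → ‖avg (win M L) (fun n => F ((Y.T ^ n) z)) - a‖ ≤ ε := by
  obtain ⟨a, ha⟩ := hW.exists_wlim (hy F)
  refine ⟨a, fun ε hε => ?_⟩
  obtain ⟨N, hN⟩ := ha ε hε
  refine ⟨N, fun z hz M L hL => ?_⟩
  have hcl : IsClosed {z : Y.X | ‖avg (MP_e326dc_an.win M L) (fun n => F ((Y.T ^ n) z)) - a‖ ≤ ε} := by
    refine isClosed_le ?_ continuous_const
    refine Continuous.norm (Continuous.sub ?_ continuous_const)
    unfold avg
    refine Continuous.const_smul ?_ _
    refine continuous_finsetSum _ fun n _ => ?_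
    exact F.continuous.comp (continuous_zpow Y.T n)
  have hsub : (Set.range fun n : ℤ => (Y.T ^ n) y) ⊆
      {z : Y.X | ‖avg (MP_e326dc_an.win M L) (fun n => F ((Y.T ^ n) z)) - a‖ ≤ ε} := by
    rintro _ ⟨k, rfl⟩
    simp only [Set.mem_ofPred_eq]
    have e : (fun n : ℤ => F ((Y.T ^ n) ((Y.T ^ k) y))) =
        fun n => (fun m : ℤ => F ((Y.T ^ m) y)) (n + k) := by
      funext n
      rw [← zpow_add_apply]
    rw [e, avg_win_shift M L (fun m : ℤ => F ((Y.T ^ m) y)) k]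
    exact hN (M + k) L hL
  exact closure_minimal hsub hcl hz

theorem null_of_sq {E : Type*} [SeminormedAddCommGroup E] {f : ℤ → E}
    (h : WTendsto (fun n => ‖f n‖ ^ 2) (0 : ℝ)) : Null f := by
  intro ε hε
  obtain ⟨N, hN⟩ := h (ε ^ 2) (by positivity)
  refine ⟨N, fun M L hL => ?_⟩
  have h1 := hN M L hL
  rw [sub_zero] at h1 ⊢
  have h0 : 0 ≤ avg (win M L) (fun n => ‖f n‖) := avg_nonneg fun i _ => norm_nonneg _
  rw [Real.norm_of_nonneg h0]
  have h2 : (avg (win M L) (fun n => ‖f n‖)) ^ 2 ≤ avg (win M L) (fun n => ‖f n‖ ^ 2) := by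
    rcases (win M L).eq_empty_or_nonempty with hs | hs
    · rw [hs]
      simp [avg]
    · have hc : (0 : ℝ) < (win M L).card := by exact_mod_cast hs.card_pos
      simp only [avg, smul_eq_mul]
      rw [mul_pow]
      have := sq_sum_le_card_mul_sum_sq (s := win M L) (f := fun i => ‖f i‖)
      calc (((win M L).card : ℝ)⁻¹) ^ 2 * (∑ i ∈ win M L, ‖f i‖) ^ 2
          ≤ (((win M L).card : ℝ)⁻¹) ^ 2 * ((win M L).card * ∑ i ∈ win M L, ‖f i‖ ^ 2) :=
            mul_le_mul_of_nonneg_left this (by positivity)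
        _ = ((win M L).card : ℝ)⁻¹ * ∑ i ∈ win M L, ‖f i‖ ^ 2 := by field_simp
  have h3 : avg (win M L) (fun n => ‖f n‖ ^ 2) ≤ ε ^ 2 := (le_abs_self _).trans h1
  exact abs_le_of_sq_le_sq' (h2.trans h3) hε.le |>.2

theorem WTendsto.unique {E : Type*} [NormedAddCommGroup E] [NormedSpace ℝ E] {f : ℤ → E} {a b : E}
    (ha : WTendsto f a) (hb : WTendsto f b) : a = b := by
  rw [← sub_eq_zero, ← norm_le_zero_iff]
  refine le_of_forall_pos_le_add fun ε hε => ?_
  obtain ⟨N, hN⟩ := ha (ε / 2) (by linarith)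
  obtain ⟨N', hN'⟩ := hb (ε / 2) (by linarith)
  have h1 := hN 0 (max N N') (le_max_left _ _)
  have h2 := hN' 0 (max N N') (le_max_right _ _)
  calc ‖a - b‖ = ‖(avg (win 0 (max N N')) f - b) - (avg (win 0 (max N N')) f - a)‖ := by
        congr 1; abel
    _ ≤ ‖avg (win 0 (max N N')) f - b‖ + ‖avg (win 0 (max N N')) f - a‖ := norm_sub_le _ _
    _ ≤ ε / 2 + ε / 2 := add_le_add h2 h1
    _ = 0 + ε := by ring

theorem WTendsto.add {E : Type*} [SeminormedAddCommGroup E] [NormedSpace ℝ E] {f g : ℤ → E} {a b : E}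
    (ha : WTendsto f a) (hb : WTendsto g b) : WTendsto (fun n => f n + g n) (a + b) := by
  intro ε hε
  obtain ⟨N, hN⟩ := ha (ε / 2) (by linarith)
  obtain ⟨N', hN'⟩ := hb (ε / 2) (by linarith)
  refine ⟨max N N', fun M L hL => ?_⟩
  have h1 := hN M L ((le_max_left _ _).trans hL)
  have h2 := hN' M L ((le_max_right _ _).trans hL)
  rw [avg_add]
  calc ‖avg (win M L) f + avg (win M L) g - (a + b)‖
      = ‖(avg (win M L) f - a) + (avg (win M L) g - b)‖ := by congr 1; abel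
    _ ≤ ‖avg (win M L) f - a‖ + ‖avg (win M L) g - b‖ := norm_add_le _ _
    _ ≤ ε / 2 + ε / 2 := add_le_add h1 h2
    _ = ε := by ring

theorem WTendsto.sub {E : Type*} [SeminormedAddCommGroup E] [NormedSpace ℝ E] {f g : ℤ → E} {a b : E}
    (ha : WTendsto f a) (hb : WTendsto g b) : WTendsto (fun n => f n - g n) (a - b) := by
  intro ε hε
  obtain ⟨N, hN⟩ := ha (ε / 2) (by linarith)
  obtain ⟨N', hN'⟩ := hb (ε / 2) (by linarith)
  refine ⟨max N N', fun M L hL => ?_⟩
  have h1 := hN M L ((le_max_left _ _).trans hL)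
  have h2 := hN' M L ((le_max_right _ _).trans hL)
  rw [avg_sub]
  calc ‖avg (win M L) f - avg (win M L) g - (a - b)‖
      = ‖(avg (win M L) f - a) - (avg (win M L) g - b)‖ := by congr 1; abel
    _ ≤ ‖avg (win M L) f - a‖ + ‖avg (win M L) g - b‖ := norm_sub_le _ _
    _ ≤ ε / 2 + ε / 2 := add_le_add h1 h2
    _ = ε := by ring

theorem WTendsto.clm {E F : Type*} [NormedAddCommGroup E] [NormedSpace ℝ E] [NormedAddCommGroup F]
    [NormedSpace ℝ F] (Φ : E →L[ℝ] F) {f : ℤ → E} {a : E} (ha : WTendsto f a) :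
    WTendsto (fun n => Φ (f n)) (Φ a) := by
  intro ε hε
  have hp : 0 < ‖Φ‖ + 1 := by positivity
  obtain ⟨N, hN⟩ := ha (ε / (‖Φ‖ + 1)) (by positivity)
  refine ⟨N, fun M L hL => ?_⟩
  have h1 := hN M L hL
  have e : avg (win M L) (fun n => Φ (f n)) = Φ (avg (win M L) f) := by
    simp only [avg, map_smul, map_sum]
  rw [e, ← map_sub]
  calc ‖Φ (avg (win M L) f - a)‖ ≤ ‖Φ‖ * ‖avg (win M L) f - a‖ := Φ.le_opNorm _
    _ ≤ (‖Φ‖ + 1) * (ε / (‖Φ‖ + 1)) :=
        mul_le_mul (by linarith) h1 (norm_nonneg _) hp.le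
    _ = ε := by field_simp

end ave

end MP_e326dc_an
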