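import Pool.Agent.Lib.MP_e326dc_an.C.Box
import Pool.Agent.Lib.MP_e326dc_an.Cube.StrDefs

/-!
# MP_e326dc_an, part D: definitions
-/

set_option autoImplicit false

open Filter Topology
open scoped ComplexConjugate

namespace MP_e326dc_an

/-! ### operators and compact sets in Hilbert space -/

section hilb
variable {H : Type} [NormedAddCommGroup H] [InnerProductSpace ℂ H] [CompleteSpace H]

/-- `K` is the uniform limit of the averages of the operators `x ↦ ⟪u_n, x⟫ u_n` over windows. -/
structure CorrOp (u : ℤ → H) (K : H →L[ℂ] H) : Prop where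
  cpt : IsCompactOperator K
  lim : ∀ ε : ℝ, 0 < ε → ∃ N : ℕ, ∀ (M : ℤ) (L : ℕ), N ≤ L → ∀ x : H, ‖x‖ ≤ 1 →
    ‖avg (win M L) (fun n => (inner ℂ (u n) x : ℂ) • u n) - K x‖ ≤ ε

/-- the closure of the image of the unit ball -/
def KK (K : H →L[ℂ] H) : Set H := closure (K '' Metric.closedBall 0 1)

theorem CorrOp.isCompact_KK {u : ℤ → H} {K : H →L[ℂ] H} (hK : CorrOp u K) : IsCompact (KK K) :=
  hK.cpt.isCompact_closure_image_closedBall 1

end hilb

/-! ### the shift -/

/-- the shift on `Z^ℤ` -/
def shiftH (Z : Type) [TopologicalSpace Z] : (ℤ → Z) ≃ₜ (ℤ → Z) where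
  toFun b := fun n => b (n + 1)
  invFun b := fun n => b (n - 1)
  left_inv b := by funext n; simp
  right_inv b := by funext n; simp
  continuous_toFun := continuous_pi fun n => continuous_apply _
  continuous_invFun := continuous_pi fun n => continuous_apply _

theorem shiftH_zpow {Z : Type} [TopologicalSpace Z] (m : ℤ) (b : ℤ → Z) (n : ℤ) :
    ((shiftH Z) ^ m) b n = b (n + m) := by
  induction m using Int.induction_on generalizing b with
  | zero => simp
  | succ k ih =>
    rw [zpow_add, zpow_one]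
    change ((shiftH Z) ^ (k : ℤ)) (shiftH Z b) n = _
    rw [ih]
    change b (n + k + 1) = _
    congr 1
    ring
  | pred k ih =>
    rw [zpow_sub, zpow_one]
    change ((shiftH Z) ^ (-(k : ℤ))) ((shiftH Z).symm b) n = _
    rw [ih]
    change b (n + -k - 1) = _
    congr 1
    ring

/-! ### tame points -/

/-- the continuous functions of the system give sequences of `W` at `y` -/
def TamePt (W : Set (ℤ → ℂ)) (Y : DSys) (y : Y.X) : Prop :=
  ∀ F : C(Y.X, ℂ), (fun n : ℤ => F ((Y.T ^ n) y)) ∈ W

/-- the closure of the orbit of the constant cube `(y,…,y)` -/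
def cubOrb (Y : DSys) (y : Y.X) (ι : Type) : Set (Finset ι → Y.X) :=
  closure (Set.range fun v : Option ι → ℤ => cact Y.T v (fun _ => y))

/-- the product of a system with a shift system -/
def shiftSys (P : DSys) (Z : Type) [TopologicalSpace Z] [CompactSpace Z] [T2Space Z] : DSys where
  X := P.X × (ℤ → Z)
  T := P.T.prodCongr (shiftH Z)

theorem shiftSys_zpow (P : DSys) (Z : Type) [TopologicalSpace Z] [CompactSpace Z] [T2Space Z]
    (m : ℤ) (x : P.X) (b : ℤ → Z) :
    ((shiftSys P Z).T ^ m) (x, b) = ((P.T ^ m) x, fun n => b (n + m)) := by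
  have h1 : (((shiftSys P Z).T ^ m) (x, b)).1 = (P.T ^ m) x :=
    equi_zpow (T := (shiftSys P Z).T) (S := P.T) (φ := Prod.fst) (fun y => rfl) m (x, b)
  have h2 : (((shiftSys P Z).T ^ m) (x, b)).2 = ((shiftH Z) ^ m) b :=
    equi_zpow (T := (shiftSys P Z).T) (S := shiftH Z) (φ := Prod.snd) (fun y => rfl) m (x, b)
  refine Prod.ext h1 ?_
  rw [h2]
  funext n
  exact shiftH_zpow m b n

end MP_e326dc_an
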