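import Pool.Agent.Lib.MP_e326dc_an.D.Defs
import Pool.Agent.Lib.MP_e326dc_an.Cube.Seq

/-!
# MP_e326dc_an, part D: the Gram sequences of `K u_n`
-/

set_option autoImplicit false

open Filter Topology
open scoped ComplexConjugate

namespace MP_e326dc_an

private theorem gram_sum {κ : Type} {s : ℕ} (t : Finset κ) {φ : κ → ℤ → ℂ}
    (h : ∀ i ∈ t, OrdNull s (φ i)) : OrdNull s (fun n => ∑ i ∈ t, φ i n) := by
  classical
  induction t using Finset.induction_on with
  | empty => simpa using OrdNull.const s 0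
  | insert a t ha ih =>
    have h1 := (h a (Finset.mem_insert_self a t)).add
      (ih fun i hi => h i (Finset.mem_insert_of_mem hi))
    have e : (fun n => ∑ i ∈ insert a t, φ i n) = fun n => φ a n + ∑ i ∈ t, φ i n := by
      funext n
      rw [Finset.sum_insert ha]
    rw [e]; exact h1

private theorem gram_avg {κ : Type} {s : ℕ} (t : Finset κ) {φ : κ → ℤ → ℂ}
    (h : ∀ i ∈ t, OrdNull s (φ i)) : OrdNull s (fun n => avg t (fun i => φ i n)) := by
  have h1 := (OrdNull.const s (((t.card : ℝ)⁻¹ : ℝ) : ℂ)).mul (gram_sum t h)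
  have e : (fun n => avg t (fun i => φ i n)) =
      fun n => (((t.card : ℝ)⁻¹ : ℝ) : ℂ) * ∑ i ∈ t, φ i n := by
    funext n
    rw [avg, Complex.real_smul]
  rw [e]; exact h1

theorem gram_ordNull {H : Type} [NormedAddCommGroup H] [InnerProductSpace ℂ H] [CompleteSpace H]
    {u : ℤ → H} {K : H →L[ℂ] H} (hu : ∀ n, ‖u n‖ ≤ 1) (hK : CorrOp u K) {s : ℕ}
    (h2 : ∀ h : ℤ, OrdNull s (fun n => inner ℂ (u n) (u (n + h)))) (h : ℤ) :
    OrdNull s (fun n => inner ℂ (K (u n)) (K (u (n + h)))) := by
  refine OrdNull.closed fun ε hε => ?_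
  set δ : ℝ := min 1 (ε / 3) with hδ
  have hδ0 : 0 < δ := lt_min one_pos (by positivity)
  have hδ1 : δ ≤ 1 := min_le_left _ _
  have hδε : 3 * δ ≤ ε := by
    have : δ ≤ ε / 3 := min_le_right _ _
    linarith
  obtain ⟨L, hL⟩ := hK.lim δ hδ0
  set c : ℤ → ℤ → ℂ := fun k m => inner ℂ (u k) (u m) with hc
  have hc1 : ∀ k m, ‖c k m‖ ≤ 1 := fun k m => (norm_inner_le_norm _ _).trans (by
    have := mul_le_mul (hu k) (hu m) (norm_nonneg _) zero_le_one
    simpa using this)
  set B : ℤ → ℤ → H := fun n m => avg (win n L) (fun k => c k m • u k) with hB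
  have hB1 : ∀ n m, ‖B n m‖ ≤ 1 := fun n m => norm_avg_le_const zero_le_one (fun k _ => by
    rw [norm_smul]
    have := mul_le_mul (hc1 k m) (hu k) (norm_nonneg _) zero_le_one
    simpa using this)
  have hB2 : ∀ n m, ‖B n m - K (u m)‖ ≤ δ := fun n m => hL n L le_rfl (u m) (hu m)
  refine ⟨fun n => inner ℂ (B n n) (B n (n + h)), ?_, fun n => ?_⟩
  · -- the approximation is of finite order
    have e : (fun n => (inner ℂ (B n n) (B n (n + h)) : ℂ)) =
        fun n => avg (win 0 L) (fun a => avg (win 0 L) (fun b =>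
          (inner ℂ (u n) (u (n + a)) : ℂ) * ((inner ℂ (u (n + b)) (u (n + b + (h - b))) : ℂ) *
            (inner ℂ (u (n + a)) (u (n + a + (b - a))) : ℂ)))) := by
      funext n
      have e1 : ∀ m, B n m = avg (win 0 L) (fun a => c (a + n) m • u (a + n)) := by
        intro m
        have := avg_win_shift 0 L (fun k => c k m • u k) n
        rw [zero_add] at this
        exact this.symm
      rw [e1, e1, avg_inner_left]
      refine congrArg _ ?_
      funext a
      rw [avg_inner_right]
      refine congrArg _ ?_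
      funext b
      rw [inner_smul_left, inner_smul_right]
      simp only [hc, inner_conj_symm]
      rw [add_comm a n, add_comm b n]
      have e2 : n + b + (h - b) = n + h := by ring
      have e3 : n + a + (b - a) = n + b := by ring
      rw [e2, e3]
    rw [e]
    refine gram_avg _ fun a _ => gram_avg _ fun b _ => ?_
    exact (h2 a).mul (((h2 (h - b)).shift b).mul ((h2 (b - a)).shift a))
  · -- the error
    have e : (inner ℂ (K (u n)) (K (u (n + h))) : ℂ) - inner ℂ (B n n) (B n (n + h)) =
        -(inner ℂ (B n n - K (u n)) (K (u (n + h))) : ℂ) -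
          inner ℂ (B n n) (B n (n + h) - K (u (n + h))) := by
      rw [inner_sub_left, inner_sub_right]; ring
    have hKn : ‖K (u (n + h))‖ ≤ 2 := by
      have e4 : K (u (n + h)) = B n (n + h) - (B n (n + h) - K (u (n + h))) := by abel
      rw [e4]
      refine (norm_sub_le _ _).trans ?_
      have := hB1 n (n + h)
      have := hB2 n (n + h)
      linarith
    have t1 : ‖(inner ℂ (B n n - K (u n)) (K (u (n + h))) : ℂ)‖ ≤ δ * 2 :=
      (norm_inner_le_norm _ _).trans (mul_le_mul (hB2 n n) hKn (norm_nonneg _) hδ0.le)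
    have t2 : ‖(inner ℂ (B n n) (B n (n + h) - K (u (n + h))) : ℂ)‖ ≤ 1 * δ :=
      (norm_inner_le_norm _ _).trans (mul_le_mul (hB1 n n) (hB2 n (n + h)) (norm_nonneg _)
        zero_le_one)
    simp only
    rw [e]
    refine (norm_sub_le _ _).trans ?_
    rw [norm_neg]
    linarith

end MP_e326dc_an
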