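import Pool.Agent.Lib.MP_e326dc_an.D.ThmZ
import Pool.Agent.Lib.MP_e326dc_an.G.Assembly

/-!
# MP_e326dc_an: the interfaces `IZ` and `IJ` of the final assembly
-/

set_option autoImplicit false

namespace MP_e326dc_an

open MeasureTheory Filter Topology

theorem iz : IZ := by
  intro A _ Ω _ μ _ T d m p hp f₀ f C hf₀ hf hC₀ hC
  exact ordNull_multicorr T p hp f₀ f hf₀ hf hC₀ hC

theorem ij : IJ := by
  intro κ _ s φ h
  exact OrdNull.joint h

end MP_e326dc_an
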