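import Pool.Agent.Lib.MP_e326dc_an.D.Defs

/-!
# MP_e326dc_an, part D: the correlation operator
-/

set_option autoImplicit false

open Filter Topology
open scoped ComplexConjugate

namespace MP_e326dc_an

section op
variable {H : Type} [NormedAddCommGroup H] [InnerProductSpace ℂ H]

/-- rank one operator -/
private noncomputable def opRk (v : H) : H →L[ℂ] H := (innerSL ℂ v).smulRight v

private theorem opRk_apply (v x : H) : opRk v x = (inner ℂ v x : ℂ) • v := rfl

private theorem opRk_compact (v : H) : IsCompactOperator (opRk v) := by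
  have h1 : IsCompactOperator (innerSL ℂ v : H →L[ℂ] ℂ) :=
    isCompactOperator_of_locallyCompactSpace_dom _
  have h2 := h1.clm_comp (ContinuousLinearMap.toSpanSingleton ℂ v)
  exact h2

private theorem op_avg_apply {α : Type*} (s : Finset α) (A : α → H →L[ℂ] H) (x : H) :
    (avg s A) x = avg s (fun i => A i x) := by
  simp only [avg, _root_.smul_apply, _root_.sum_apply]

private theorem op_avg_compact {α : Type*} (s : Finset α) (A : α → H →L[ℂ] H)
    (hA : ∀ i, IsCompactOperator (A i)) : IsCompactOperator (avg s A : H →L[ℂ] H) := by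
  have h1 : ∀ t : Finset α, IsCompactOperator (∑ i ∈ t, A i : H →L[ℂ] H) := by
    intro t
    classical
    induction t using Finset.induction_on with
    | empty =>
      rw [Finset.sum_empty]
      exact isCompactOperator_zero
    | insert a t ha ih =>
      rw [Finset.sum_insert ha]
      exact (hA a).add ih
  rw [avg]
  exact (h1 s).smul _

/-- Hilbert-Schmidt estimate -/
private theorem op_hs {α : Type*} (s : Finset α) (a : α → ℝ) (u : α → H) (x : H) :
    ‖(∑ i ∈ s, a i • opRk (u i)) x‖ ^ 2 ≤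
      (∑ i ∈ s, ∑ j ∈ s, a i * a j * ‖(inner ℂ (u i) (u j) : ℂ)‖ ^ 2) * ‖x‖ ^ 2 := by
  classical
  obtain ⟨R, hR⟩ : ∃ R : Submodule ℂ H,
      R = Submodule.span ℂ ((insert x (s.image u) : Finset H) : Set H) := ⟨_, rfl⟩
  have hfin : FiniteDimensional ℂ R := by
    rw [hR]
    exact FiniteDimensional.span_finset ℂ _
  have hx : x ∈ R := by
    rw [hR]
    exact Submodule.subset_span (by simp)
  have hu : ∀ i ∈ s, u i ∈ R := by
    intro i hi
    rw [hR]
    refine Submodule.subset_span ?_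
    rw [Finset.mem_coe, Finset.mem_insert]
    exact Or.inr (Finset.mem_image_of_mem u hi)
  have b := stdOrthonormalBasis ℂ R
  obtain ⟨A, hA⟩ : ∃ A : H →L[ℂ] H, A = ∑ i ∈ s, a i • opRk (u i) := ⟨_, rfl⟩
  rw [← hA]
  -- expansion of x
  have hx1 : x = ∑ k, (inner ℂ ((b k : R) : H) x : ℂ) • ((b k : R) : H) := by
    have h := b.sum_repr' ⟨x, hx⟩
    have h2 := congrArg (fun y : R => (y : H)) h
    simp only [Submodule.coe_sum, Submodule.coe_smul, Submodule.coe_inner] at h2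
    exact h2.symm
  have hAx : ‖A x‖ ≤ ∑ k, ‖(inner ℂ ((b k : R) : H) x : ℂ)‖ * ‖A ((b k : R) : H)‖ := by
    have : A x = ∑ k, (inner ℂ ((b k : R) : H) x : ℂ) • A ((b k : R) : H) := by
      conv_lhs => rw [hx1]
      rw [map_sum]
      simp only [map_smul]
    rw [this]
    refine (norm_sum_le _ _).trans (le_of_eq ?_)
    refine Finset.sum_congr rfl fun k _ => norm_smul _ _
  have hcx : ∑ k, ‖(inner ℂ ((b k : R) : H) x : ℂ)‖ ^ 2 = ‖x‖ ^ 2 := by
    have h := b.sum_sq_norm_inner_right ⟨x, hx⟩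
    simp only [Submodule.coe_inner] at h
    exact h
  have hAb : ∑ k, ‖A ((b k : R) : H)‖ ^ 2 =
      ∑ i ∈ s, ∑ j ∈ s, a i * a j * ‖(inner ℂ (u i) (u j) : ℂ)‖ ^ 2 := by
    have key : ∀ i ∈ s, ∀ j ∈ s, ∑ k, (inner ℂ (u j) ((b k : R) : H) : ℂ) *
        inner ℂ ((b k : R) : H) (u i) = inner ℂ (u j) (u i) := by
      intro i hi j hj
      have h := b.sum_inner_mul_inner ⟨u j, hu j hj⟩ ⟨u i, hu i hi⟩
      simp only [Submodule.coe_inner] at h
      exact h
    have hAk : ∀ y : H, ((‖A y‖ ^ 2 : ℝ) : ℂ) = ∑ i ∈ s, ∑ j ∈ s,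
        ((a i : ℂ) * a j * (inner ℂ (u i) (u j) : ℂ)) * (inner ℂ (u j) y * inner ℂ y (u i)) := by
      intro y
      have h1 : ((‖A y‖ ^ 2 : ℝ) : ℂ) = inner ℂ (A y) (A y) := by
        rw [inner_self_eq_norm_sq_to_K]
        simp
      rw [h1]
      have h2 : A y = ∑ i ∈ s, a i • ((inner ℂ (u i) y : ℂ) • u i) := by
        rw [hA]
        simp only [_root_.sum_apply, _root_.smul_apply, opRk_apply]
      rw [h2, sum_inner]
      refine Finset.sum_congr rfl fun i _ => ?_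
      rw [inner_sum]
      refine Finset.sum_congr rfl fun j _ => ?_
      rw [inner_rsmul_left, inner_rsmul_right, inner_smul_left, inner_smul_right,
        inner_conj_symm]
      ring
    have hc : ((∑ k, ‖A ((b k : R) : H)‖ ^ 2 : ℝ) : ℂ) =
        ((∑ i ∈ s, ∑ j ∈ s, a i * a j * ‖(inner ℂ (u i) (u j) : ℂ)‖ ^ 2 : ℝ) : ℂ) := by
      rw [Complex.ofReal_sum]
      simp only [hAk]
      rw [Finset.sum_comm, Complex.ofReal_sum]
      refine Finset.sum_congr rfl fun i hi => ?_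
      rw [Finset.sum_comm, Complex.ofReal_sum]
      refine Finset.sum_congr rfl fun j hj => ?_
      rw [← Finset.mul_sum, key i hi j hj]
      have h3 : (inner ℂ (u i) (u j) : ℂ) * inner ℂ (u j) (u i) =
          ((‖(inner ℂ (u i) (u j) : ℂ)‖ ^ 2 : ℝ) : ℂ) := by
        rw [← inner_conj_symm (u j) (u i), Complex.mul_conj, Complex.normSq_eq_norm_sq]
      rw [mul_assoc, h3]
      push_cast
      ring
    exact_mod_cast hc
  calc ‖A x‖ ^ 2 ≤ (∑ k, ‖(inner ℂ ((b k : R) : H) x : ℂ)‖ * ‖A ((b k : R) : H)‖) ^ 2 :=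
        pow_le_pow_left₀ (norm_nonneg _) hAx 2
    _ ≤ (∑ k, ‖(inner ℂ ((b k : R) : H) x : ℂ)‖ ^ 2) * ∑ k, ‖A ((b k : R) : H)‖ ^ 2 :=
        Finset.sum_mul_sq_le_sq_mul_sq _ _ _
    _ = _ := by rw [hcx, hAb, mul_comm]

/-- double averages as box averages -/
private theorem op_box {F : Type*} [AddCommGroup F] [Module ℝ F] (M M' : ℤ) (L L' : ℕ)
    (f : ℤ → ℤ → F) :
    avg (box ![M, M'] ![L, L']) (fun v : Fin 2 → ℤ => f (v 0) (v 1)) =
      avg (win M L) (fun n => avg (win M' L') (fun m => f n m)) := by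
  rw [← avg_product (win M L) (win M' L') (fun p => f p.1 p.2)]
  refine avg_bij _ _ (fun v => (v 0, v 1)) (fun p => ![p.1, p.2]) ?_ ?_ ?_ ?_ ?_
  · intro v hv
    simp only [box, win, Fintype.mem_piFinset, Finset.mem_product] at hv ⊢
    exact ⟨hv 0, hv 1⟩
  · rintro ⟨n, m⟩ hv
    simp only [box, win, Fintype.mem_piFinset, Finset.mem_product] at hv ⊢
    intro i
    fin_cases i
    · exact hv.1
    · exact hv.2
  · intro v _
    funext i
    fin_cases i <;> rfl
  · rintro ⟨n, m⟩ _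
    rfl
  · intro v _
    rfl

/-- comparison of two windows -/
private theorem op_cmp {u : ℤ → H} {ε : ℝ} {N : ℕ}
    (h : ∀ (M M' : Fin 2 → ℤ) (L L' : Fin 2 → ℕ), (∀ i, N ≤ L i) → (∀ i, N ≤ L' i) →
      ‖avg (box M L) (fun v : Fin 2 → ℤ => ‖(inner ℂ (u (v 0)) (u (v 1)) : ℂ)‖ ^ 2) -
        avg (box M' L') (fun v : Fin 2 → ℤ => ‖(inner ℂ (u (v 0)) (u (v 1)) : ℂ)‖ ^ 2)‖ ≤ ε)
    (M M' : ℤ) {L L' : ℕ} (hL : N ≤ L) (hL' : N ≤ L') :
    ‖avg (win M L) (fun n => opRk (u n)) - avg (win M' L') (fun n => opRk (u n))‖ ≤ √(2 * ε) := by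
  classical
  refine ContinuousLinearMap.opNorm_le_bound _ (Real.sqrt_nonneg _) fun x => ?_
  have h1 := op_hs ((win M L).disjSum (win M' L'))
    (Sum.elim (fun _ => ((win M L).card : ℝ)⁻¹) (fun _ => -((win M' L').card : ℝ)⁻¹))
    (Sum.elim u u) x
  have h2 : (∑ i ∈ (win M L).disjSum (win M' L'),
      (Sum.elim (fun _ => ((win M L).card : ℝ)⁻¹) (fun _ => -((win M' L').card : ℝ)⁻¹) i : ℝ) •
        opRk (Sum.elim u u i)) =
      avg (win M L) (fun n => opRk (u n)) - avg (win M' L') (fun n => opRk (u n)) := by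
    rw [Finset.sum_disjSum]
    simp only [Sum.elim_inl, Sum.elim_inr, neg_smul, Finset.sum_neg_distrib, avg, Finset.smul_sum,
      sub_eq_add_neg]
  rw [h2] at h1
  obtain ⟨g, hg⟩ : ∃ g : ℤ → ℤ → ℝ, g = fun n m => ‖(inner ℂ (u n) (u m) : ℂ)‖ ^ 2 := ⟨_, rfl⟩
  have h3 : (∑ i ∈ (win M L).disjSum (win M' L'), ∑ j ∈ (win M L).disjSum (win M' L'),
      (Sum.elim (fun _ => ((win M L).card : ℝ)⁻¹) (fun _ => -((win M' L').card : ℝ)⁻¹) i : ℝ) *
      (Sum.elim (fun _ => ((win M L).card : ℝ)⁻¹) (fun _ => -((win M' L').card : ℝ)⁻¹) j : ℝ) *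
      ‖(inner ℂ (Sum.elim u u i) (Sum.elim u u j) : ℂ)‖ ^ 2) =
      avg (win M L) (fun n => avg (win M L) (fun m => g n m)) -
      avg (win M L) (fun n => avg (win M' L') (fun m => g n m)) -
      avg (win M' L') (fun n => avg (win M L) (fun m => g n m)) +
      avg (win M' L') (fun n => avg (win M' L') (fun m => g n m)) := by
    rw [Finset.sum_disjSum]
    simp only [Finset.sum_disjSum, Sum.elim_inl, Sum.elim_inr, avg, smul_eq_mul, Finset.mul_sum,
      hg]
    rw [Finset.sum_add_distrib, Finset.sum_add_distrib]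
    have e : ∀ (s t : Finset ℤ) (c d : ℝ) (f : ℤ → ℤ → ℝ),
        (∑ i ∈ s, ∑ j ∈ t, c * -d * f i j) = -∑ i ∈ s, ∑ j ∈ t, c * (d * f i j) := by
      intro s t c d f
      rw [← Finset.sum_neg_distrib]
      refine Finset.sum_congr rfl fun i _ => ?_
      rw [← Finset.sum_neg_distrib]
      exact Finset.sum_congr rfl fun j _ => by ring
    have e2 : ∀ (s t : Finset ℤ) (c d : ℝ) (f : ℤ → ℤ → ℝ),
        (∑ i ∈ s, ∑ j ∈ t, -c * d * f i j) = -∑ i ∈ s, ∑ j ∈ t, c * (d * f i j) := by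
      intro s t c d f
      rw [← Finset.sum_neg_distrib]
      refine Finset.sum_congr rfl fun i _ => ?_
      rw [← Finset.sum_neg_distrib]
      exact Finset.sum_congr rfl fun j _ => by ring
    have e3 : ∀ (s t : Finset ℤ) (c d : ℝ) (f : ℤ → ℤ → ℝ),
        (∑ i ∈ s, ∑ j ∈ t, c * d * f i j) = ∑ i ∈ s, ∑ j ∈ t, c * (d * f i j) := by
      intro s t c d f
      refine Finset.sum_congr rfl fun i _ => ?_
      exact Finset.sum_congr rfl fun j _ => by ring
    have e4 : ∀ (s t : Finset ℤ) (c d : ℝ) (f : ℤ → ℤ → ℝ),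
        (∑ i ∈ s, ∑ j ∈ t, -c * -d * f i j) = ∑ i ∈ s, ∑ j ∈ t, c * (d * f i j) := by
      intro s t c d f
      refine Finset.sum_congr rfl fun i _ => ?_
      exact Finset.sum_congr rfl fun j _ => by ring
    rw [e, e2, e3, e4]
    ring
  rw [h3] at h1
  have b1 := h ![M, M] ![M, M'] ![L, L] ![L, L'] (by intro i; fin_cases i <;> simpa using hL)
    (by
      intro i
      fin_cases i
      · simpa using hL
      · simpa using hL')
  have b2 := h ![M', M'] ![M', M] ![L', L'] ![L', L] (by intro i; fin_cases i <;> simpa using hL')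
    (by
      intro i
      fin_cases i
      · simpa using hL'
      · simpa using hL)
  have hgg : (fun v : Fin 2 → ℤ => ‖(inner ℂ (u (v 0)) (u (v 1)) : ℂ)‖ ^ 2) =
      fun v : Fin 2 → ℤ => g (v 0) (v 1) := by
    rw [hg]
  rw [hgg, op_box, op_box, Real.norm_eq_abs] at b1 b2
  have b1' := (abs_le.mp b1).2
  have b2' := (abs_le.mp b2).2
  have h4 : ‖(avg (win M L) (fun n => opRk (u n)) - avg (win M' L') (fun n => opRk (u n))) x‖ ^ 2 ≤
      (2 * ε) * ‖x‖ ^ 2 := by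
    refine h1.trans (mul_le_mul_of_nonneg_right ?_ (by positivity))
    linarith
  have hε : 0 ≤ ε := (norm_nonneg _).trans (h ![M, M] ![M, M'] ![L, L] ![L, L']
    (by intro i; fin_cases i <;> simpa using hL)
    (by
      intro i
      fin_cases i
      · simpa using hL
      · simpa using hL'))
  have h5 : (√(2 * ε) * ‖x‖) ^ 2 = (2 * ε) * ‖x‖ ^ 2 := by
    rw [mul_pow, Real.sq_sqrt (by linarith)]
  rw [← h5] at h4
  exact (pow_le_pow_iff_left₀ (norm_nonneg _) (by positivity) (by norm_num)).mp h4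

end op

section op
variable {H : Type} [NormedAddCommGroup H] [InnerProductSpace ℂ H] [CompleteSpace H]
variable {u : ℤ → H} {K : H →L[ℂ] H}

/-- existence of the correlation operator -/
theorem exists_corrOp (hu : ∀ n, ‖u n‖ ≤ 1)
    (h : UCauchy (fun v : Fin 2 → ℤ => ‖(inner ℂ (u (v 0)) (u (v 1)) : ℂ)‖ ^ 2)) :
    ∃ K : H →L[ℂ] H, CorrOp u K := by
  -- uniform Cauchy property
  have hC : ∀ η : ℝ, 0 < η → ∃ N : ℕ, ∀ (M M' : ℤ) (L L' : ℕ), N ≤ L → N ≤ L' →
      ‖avg (win M L) (fun n => opRk (u n)) - avg (win M' L') (fun n => opRk (u n))‖ ≤ η := by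
    intro η hη
    obtain ⟨N, hN⟩ := h (η ^ 2 / 2) (by positivity)
    refine ⟨N, fun M M' L L' hL hL' => ?_⟩
    have h1 := op_cmp hN M M' hL hL'
    have h2 : √(2 * (η ^ 2 / 2)) = η := by
      rw [mul_div_cancel₀ _ (by norm_num : (2 : ℝ) ≠ 0), Real.sqrt_sq hη.le]
    rw [h2] at h1
    exact h1
  have hcs : CauchySeq (fun j : ℕ => avg (win 0 j) (fun n => opRk (u n))) := by
    rw [Metric.cauchySeq_iff]
    intro ε hε
    obtain ⟨N, hN⟩ := hC (ε / 2) (by positivity)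
    refine ⟨N, fun m hm n hn => ?_⟩
    rw [dist_eq_norm]
    exact (hN 0 0 m n hm hn).trans_lt (by linarith)
  obtain ⟨K, hK⟩ := cauchySeq_tendsto_of_complete hcs
  refine ⟨K, ?_, ?_⟩
  · refine isCompactOperator_of_tendsto hK (Eventually.of_forall fun j => ?_)
    exact op_avg_compact _ _ fun n => opRk_compact _
  · intro ε hε
    obtain ⟨N, hN⟩ := hC ε hε
    refine ⟨N, fun M L hL x hx => ?_⟩
    have h1 : ‖avg (win M L) (fun n => opRk (u n)) - K‖ ≤ ε := by
      have h2 : Tendsto (fun j : ℕ => ‖avg (win M L) (fun n => opRk (u n)) -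
          avg (win 0 j) (fun n => opRk (u n))‖) atTop
          (𝓝 ‖avg (win M L) (fun n => opRk (u n)) - K‖) :=
        (tendsto_const_nhds.sub hK).norm
      refine le_of_tendsto h2 ?_
      filter_upwards [eventually_ge_atTop N] with j hj
      exact hN M 0 L j hL hj
    have h3 : avg (win M L) (fun n => (inner ℂ (u n) x : ℂ) • u n) - K x =
        (avg (win M L) (fun n => opRk (u n)) - K) x := by
      rw [_root_.sub_apply, op_avg_apply]
      rfl
    rw [h3]
    refine (ContinuousLinearMap.le_opNorm _ x).trans ?_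
    calc _ ≤ ε * 1 := mul_le_mul h1 hx (norm_nonneg _) hε.le
      _ = ε := mul_one ε

/-- window averages of `⟨u_n, x⟩ u_n` -/
private theorem op_wt (hK : CorrOp u K) (x : H) :
    WTendsto (fun n => (inner ℂ (u n) x : ℂ) • u n) (K x) := by
  intro ε hε
  have hc : 0 < ‖x‖ + 1 := by positivity
  obtain ⟨N, hN⟩ := hK.lim (ε / (‖x‖ + 1)) (by positivity)
  refine ⟨N, fun M L hL => ?_⟩
  obtain ⟨y, hy⟩ : ∃ y : H, y = (((‖x‖ + 1 : ℝ)⁻¹ : ℝ) : ℂ) • x := ⟨_, rfl⟩
  have hxy : x = ((‖x‖ + 1 : ℝ) : ℂ) • y := by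
    rw [hy, smul_smul, ← Complex.ofReal_mul, mul_inv_cancel₀ hc.ne', Complex.ofReal_one, one_smul]
  have hyn : ‖y‖ ≤ 1 := by
    rw [hy, norm_smul, Complex.norm_real, Real.norm_eq_abs, abs_of_pos (by positivity),
      inv_mul_le_iff₀ hc]
    linarith
  have h1 := hN M L hL y hyn
  have h2 : avg (win M L) (fun n => (inner ℂ (u n) x : ℂ) • u n) - K x =
      ((‖x‖ + 1 : ℝ) : ℂ) • (avg (win M L) (fun n => (inner ℂ (u n) y : ℂ) • u n) - K y) := by
    have e1 : ∀ n, (inner ℂ (u n) x : ℂ) • u n =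
        ((‖x‖ + 1 : ℝ) : ℂ) • ((inner ℂ (u n) y : ℂ) • u n) := by
      intro n
      conv_lhs => rw [hxy]
      rw [inner_smul_right, mul_smul]
    have e2 : K x = ((‖x‖ + 1 : ℝ) : ℂ) • K y := by
      conv_lhs => rw [hxy]
      rw [map_smul]
    simp only [e1]
    rw [e2, smul_sub]
    congr 1
    simp only [avg]
    rw [← Finset.smul_sum, smul_comm]
  rw [h2, norm_smul, Complex.norm_real, Real.norm_eq_abs, abs_of_pos hc]
  calc (‖x‖ + 1) * _ ≤ (‖x‖ + 1) * (ε / (‖x‖ + 1)) := mul_le_mul_of_nonneg_left h1 hc.le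
    _ = ε := by field_simp

private theorem op_wt_seq {E : Type*} [SeminormedAddCommGroup E] [Module ℝ E] {f : ℤ → E} {a : E}
    (h : WTendsto f a) : Tendsto (fun L : ℕ => avg (win 0 L) f) atTop (𝓝 a) := by
  rw [Metric.tendsto_atTop]
  intro ε hε
  obtain ⟨N, hN⟩ := h (ε / 2) (by positivity)
  refine ⟨N, fun L hL => ?_⟩
  rw [dist_eq_norm]
  exact (hN 0 L hL).trans_lt (by linarith)

theorem CorrOp.symm (hK : CorrOp u K) (x y : H) : (inner ℂ (K x) y : ℂ) = inner ℂ x (K y) := by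
  have h1 : Tendsto (fun L : ℕ => (inner ℂ (avg (win 0 L)
      (fun n => (inner ℂ (u n) x : ℂ) • u n)) y : ℂ)) atTop (𝓝 (inner ℂ (K x) y)) :=
    (op_wt_seq (op_wt hK x)).inner tendsto_const_nhds
  have h2 : Tendsto (fun L : ℕ => (inner ℂ x (avg (win 0 L)
      (fun n => (inner ℂ (u n) y : ℂ) • u n)) : ℂ)) atTop (𝓝 (inner ℂ x (K y))) :=
    tendsto_const_nhds.inner (op_wt_seq (op_wt hK y))
  refine tendsto_nhds_unique h1 ?_
  have h3 : (fun L : ℕ => (inner ℂ (avg (win 0 L)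
      (fun n => (inner ℂ (u n) x : ℂ) • u n)) y : ℂ)) = fun L : ℕ => (inner ℂ x (avg (win 0 L)
      (fun n => (inner ℂ (u n) y : ℂ) • u n)) : ℂ) := by
    funext L
    rw [avg_inner_left, avg_inner_right]
    congr 1
    funext n
    rw [inner_smul_left, inner_smul_right, inner_conj_symm, mul_comm]
  rw [h3]
  exact h2

private theorem op_inner (x : H) (v : H) :
    (inner ℂ x ((inner ℂ v x : ℂ) • v) : ℂ) = ((‖(inner ℂ x v : ℂ)‖ ^ 2 : ℝ) : ℂ) := by
  rw [inner_smul_right, ← inner_conj_symm v x, mul_comm, Complex.mul_conj,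
    Complex.normSq_eq_norm_sq]

theorem CorrOp.sq_lim (hK : CorrOp u K) (x : H) :
    WTendsto (fun n => ‖(inner ℂ x (u n) : ℂ)‖ ^ 2) (inner ℂ x (K x) : ℂ).re := by
  intro ε hε
  have hc : 0 < ‖x‖ + 1 := by positivity
  obtain ⟨N, hN⟩ := op_wt hK x (ε / (‖x‖ + 1)) (by positivity)
  refine ⟨N, fun M L hL => ?_⟩
  have h1 := hN M L hL
  have h2 : avg (win M L) (fun n => ‖(inner ℂ x (u n) : ℂ)‖ ^ 2) - (inner ℂ x (K x) : ℂ).re =
      (inner ℂ x (avg (win M L) (fun n => (inner ℂ (u n) x : ℂ) • u n) - K x) : ℂ).re := by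
    rw [inner_sub_right, Complex.sub_re, avg_inner_right, avg_re]
    simp only [op_inner, Complex.ofReal_re]
  rw [h2, Real.norm_eq_abs]
  refine (Complex.abs_re_le_norm _).trans ((norm_inner_le_norm _ _).trans ?_)
  calc ‖x‖ * _ ≤ (‖x‖ + 1) * (ε / (‖x‖ + 1)) :=
        mul_le_mul (by linarith) h1 (norm_nonneg _) hc.le
    _ = ε := by field_simp

theorem CorrOp.eq_zero (hu : ∀ n, ‖u n‖ ≤ 1) (hK : CorrOp u K) {x : H}
    (h : (inner ℂ x (K x) : ℂ).re = 0) : K x = 0 := by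
  have h1 := op_wt_seq (op_wt hK x)
  have h2 := op_wt_seq (hK.sq_lim x)
  rw [h] at h2
  have h3 : ∀ L : ℕ, ‖avg (win 0 L) (fun n => (inner ℂ (u n) x : ℂ) • u n)‖ ^ 2 ≤
      avg (win 0 L) (fun n => ‖(inner ℂ x (u n) : ℂ)‖ ^ 2) := by
    intro L
    refine (norm_avg_sq_le _ _).trans (avg_le_avg fun n _ => ?_)
    rw [norm_smul, mul_pow, norm_inner_symm]
    have : ‖u n‖ ^ 2 ≤ 1 := pow_le_one₀ (norm_nonneg _) (hu n)
    calc _ ≤ ‖(inner ℂ x (u n) : ℂ)‖ ^ 2 * 1 := mul_le_mul_of_nonneg_left this (by positivity)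
      _ = _ := mul_one _
  have h4 : ‖K x‖ ^ 2 ≤ 0 := le_of_tendsto_of_tendsto' (h1.norm.pow 2) h2 h3
  have h5 : ‖K x‖ ^ 2 = 0 := le_antisymm h4 (by positivity)
  exact norm_eq_zero.mp (pow_eq_zero_iff (by norm_num) |>.mp h5)

/-- the averages of `|⟨x, K u_n⟩|²` vanish only for `x` in the kernel -/
theorem CorrOp.ker_of_avg (hu : ∀ n, ‖u n‖ ≤ 1) (hK : CorrOp u K) {x : H}
    (h : WTendsto (fun n => ‖(inner ℂ x (K (u n)) : ℂ)‖ ^ 2) 0) : K x = 0 := by
  have h1 : (fun n => ‖(inner ℂ x (K (u n)) : ℂ)‖ ^ 2) =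
      fun n => ‖(inner ℂ (K x) (u n) : ℂ)‖ ^ 2 := by
    funext n
    rw [hK.symm]
  rw [h1] at h
  have h2 := tendsto_nhds_unique (op_wt_seq (hK.sq_lim (K x))) (op_wt_seq h)
  have h3 : K (K x) = 0 := hK.eq_zero hu h2
  have h4 : (inner ℂ (K x) (K x) : ℂ) = 0 := by
    rw [hK.symm, h3, inner_zero_right]
  exact inner_self_eq_zero.mp h4

theorem CorrOp.inner_KK (hK : CorrOp u K) {f v : H} (hf : K f = 0) (hv : v ∈ KK K) :
    (inner ℂ f v : ℂ) = 0 := by
  have hcl : IsClosed {v : H | (inner ℂ f v : ℂ) = 0} :=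
    isClosed_eq (continuous_const.inner continuous_id) continuous_const
  have hsub : K '' Metric.closedBall 0 1 ⊆ {v : H | (inner ℂ f v : ℂ) = 0} := by
    rintro _ ⟨x, _, rfl⟩
    change (inner ℂ f (K x) : ℂ) = 0
    rw [← hK.symm, hf, inner_zero_left]
  exact closure_minimal hsub hcl hv

theorem CorrOp.apply_mem_KK (hu : ∀ n, ‖u n‖ ≤ 1) (n : ℤ) : K (u n) ∈ KK K := by
  refine subset_closure ⟨u n, ?_, rfl⟩
  rw [mem_closedBall_zero_iff]
  exact hu n

theorem CorrOp.decomp (hK : CorrOp u K) (f : H) {ε : ℝ} (hε : 0 < ε) :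
    ∃ f' f'' : H, K f'' = 0 ∧ ‖f - (K f' + f'')‖ ≤ ε := by
  obtain ⟨S, hS⟩ : ∃ S : Submodule ℂ H, S = (LinearMap.range (K : H →ₗ[ℂ] H)).topologicalClosure :=
    ⟨_, rfl⟩
  have hSc : IsClosed (S : Set H) := by
    rw [hS]
    exact Submodule.isClosed_topologicalClosure _
  have : CompleteSpace S := hSc.completeSpace_coe
  obtain ⟨p, hp, hq⟩ : ∃ p ∈ S, f - p ∈ Sᗮ :=
    ⟨S.starProjection f, Submodule.starProjection_apply_mem _ _,
      Submodule.sub_starProjection_mem_orthogonal f⟩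
  have hKq : K (f - p) = 0 := by
    have h1 : ∀ y : H, (inner ℂ (K (f - p)) y : ℂ) = 0 := by
      intro y
      rw [hK.symm]
      have h2 : K y ∈ S := by
        rw [hS]
        exact Submodule.le_topologicalClosure _ ⟨y, rfl⟩
      exact Submodule.inner_left_of_mem_orthogonal h2 hq
    exact inner_self_eq_zero.mp (h1 _)
  have hp2 : p ∈ closure (Set.range K) := by
    rw [hS] at hp
    exact hp
  obtain ⟨_, ⟨f', rfl⟩, hf'⟩ := Metric.mem_closure_iff.mp hp2 ε hε
  refine ⟨f', f - p, hKq, ?_⟩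
  have e : f - (K f' + (f - p)) = p - K f' := by abel
  rw [e, ← dist_eq_norm]
  exact hf'.le

end op

end MP_e326dc_an
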