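import Pool.Agent.Lib.MP_e326dc_an.D.Defs

/-!
# MP_e326dc_an, part D: tame points in shift systems (Stone-Weierstrass)
-/

set_option autoImplicit false

open Filter Topology
open scoped ComplexConjugate

namespace MP_e326dc_an

/-- the functions giving sequences of `W` at `y` form a star subalgebra -/
private def tameStarAlg {W : Set (ℤ → ℂ)} (hW : TameAlg W) (Y : DSys) (y : Y.X) :
    StarSubalgebra ℂ C(Y.X, ℂ) where
  carrier := {F | (fun n : ℤ => F ((Y.T ^ n) y)) ∈ W}
  mul_mem' := fun ha hb => hW.mul _ ha _ hb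
  add_mem' := fun ha hb => hW.add _ ha _ hb
  algebraMap_mem' := fun c => hW.const c
  star_mem' := fun ha => hW.conj_mem _ ha

private theorem mem_tameStarAlg {W : Set (ℤ → ℂ)} (hW : TameAlg W) (Y : DSys) (y : Y.X)
    (F : C(Y.X, ℂ)) : F ∈ tameStarAlg hW Y y ↔ (fun n : ℤ => F ((Y.T ^ n) y)) ∈ W := Iff.rfl

private theorem isClosed_tameStarAlg {W : Set (ℤ → ℂ)} (hW : TameAlg W) (Y : DSys) (y : Y.X) :
    IsClosed (tameStarAlg hW Y y : Set C(Y.X, ℂ)) := by
  rw [← closure_subset_iff_isClosed]
  intro F hF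
  refine (mem_tameStarAlg hW Y y F).2 (hW.closed _ fun ε hε => ?_)
  obtain ⟨G, hG, hFG⟩ := Metric.mem_closure_iff.1 hF ε hε
  refine ⟨_, hG, fun n => ?_⟩
  have h1 := ContinuousMap.dist_apply_le_dist (f := F) (g := G) ((Y.T ^ n) y)
  rw [dist_eq_norm] at h1
  exact h1.trans hFG.le

private theorem tamePt_of_separates {W : Set (ℤ → ℂ)} (hW : TameAlg W) (Y : DSys) (y : Y.X)
    (hs : ∀ x x' : Y.X, (∀ F : C(Y.X, ℂ), (fun n : ℤ => F ((Y.T ^ n) y)) ∈ W → F x = F x') →
      x = x') : TamePt W Y y := by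
  have hsep : (tameStarAlg hW Y y).SeparatesPoints := by
    intro x x' hne
    by_contra hcon
    push Not at hcon
    refine hne (hs x x' fun F hF => ?_)
    exact hcon F ⟨F, (mem_tameStarAlg hW Y y F).2 hF, rfl⟩
  have htop := ContinuousMap.starSubalgebra_topologicalClosure_eq_top_of_separatesPoints
    (tameStarAlg hW Y y) hsep
  intro F
  have hF : F ∈ (tameStarAlg hW Y y).topologicalClosure := by
    rw [htop]; exact StarSubalgebra.mem_top
  have hF' : F ∈ closure (tameStarAlg hW Y y : Set C(Y.X, ℂ)) := by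
    rw [← StarSubalgebra.topologicalClosure_coe]
    exact hF
  rw [(isClosed_tameStarAlg hW Y y).closure_eq] at hF'
  exact (mem_tameStarAlg hW Y y F).1 hF'

theorem tamePt_shiftSys {W : Set (ℤ → ℂ)} (hW : TameAlg W) {P : DSys} {w : P.X}
    (hP : TamePt W P w) {H : Type} [NormedAddCommGroup H] [InnerProductSpace ℂ H]
    {Z : Set H} [CompactSpace Z] (B : ℤ → Z)
    (hB : ∀ (f : H) (k : ℤ), (fun n => (inner ℂ f (B (n + k) : H) : ℂ)) ∈ W) :
    TamePt W (shiftSys P Z) (w, B) := by
  refine tamePt_of_separates hW (shiftSys P Z) (w, B) ?_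
  rintro ⟨x, b⟩ ⟨x', b'⟩ h
  have hx : x = x' := by
    by_contra hne
    obtain ⟨F, hF⟩ : ∃ F : C(P.X, ℂ), F x ≠ F x' := by
      have hc : IsClosed ({x'} : Set P.X) := isClosed_singleton
      obtain ⟨g, hg0, hg1, -⟩ := exists_continuous_zero_one_of_isClosed
        (isClosed_singleton (x := x)) hc (by
          rw [Set.disjoint_singleton]; exact hne)
      refine ⟨(ContinuousMap.mk (fun r : ℝ => (r : ℂ)) Complex.continuous_ofReal).comp g, ?_⟩
      have e0 : g x = 0 := hg0 rfl
      have e1 : g x' = 1 := hg1 rfl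
      simp [e0, e1]
    let F' : C((shiftSys P Z).X, ℂ) := F.comp ⟨Prod.fst, continuous_fst⟩
    have h2 := h F' (by
      have := hP F
      have e : (fun n : ℤ => F' (((shiftSys P Z).T ^ n) (w, B))) =
          fun n : ℤ => F ((P.T ^ n) w) := by
        funext n
        rw [shiftSys_zpow]
        rfl
      rw [e]
      exact this)
    exact hF h2
  have hb : b = b' := by
    funext k
    apply Subtype.ext
    have hin : ∀ f : H, (inner ℂ f ((b k : H)) : ℂ) = inner ℂ f (b' k : H) := by
      intro f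
      let F' : C((shiftSys P Z).X, ℂ) :=
        ⟨fun p => (inner ℂ f ((p.2 k : Z) : H) : ℂ), by
          have h1 : Continuous fun p : P.X × (ℤ → Z) => ((p.2 k : Z) : H) :=
            continuous_subtype_val.comp ((continuous_apply k).comp continuous_snd)
          exact continuous_const.inner h1⟩
      exact h F' (by
        have e : (fun n : ℤ => F' (((shiftSys P Z).T ^ n) (w, B))) =
            fun n : ℤ => (inner ℂ f (B (n + k) : H) : ℂ) := by
          funext n
          rw [shiftSys_zpow]
          change (inner ℂ f (B (k + n) : H) : ℂ) = _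
          rw [add_comm]
        rw [e]
        exact hB f k)
    exact ext_inner_left ℂ hin
  rw [hx, hb]

end MP_e326dc_an
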