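import Pool.Agent.Lib.MP_e326dc_an.Cube.Seq
import Pool.Agent.Lib.MP_e326dc_an.Cube.Dens
import Pool.Agent.Lib.MP_e326dc_an.D.Ave
import Pool.Agent.Lib.MP_e326dc_an.D.Op
import Pool.Agent.Lib.MP_e326dc_an.D.Tame
import Pool.Agent.Lib.MP_e326dc_an.D.Gram

/-!
# MP_e326dc_an, part D: the system generated by the sequence `K u_n`
-/

set_option autoImplicit false

open Filter Topology
open scoped ComplexConjugate

namespace MP_e326dc_an

attribute [local instance] Ultrafilter.add Ultrafilter.addSemigroup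

/-- an essential idempotent -/
noncomputable def pE : Ultrafilter ℤ := exists_idem_Ess.choose

theorem pE_mem : pE ∈ Ess := exists_idem_Ess.choose_spec.1

theorem pE_idem : pE + pE = pE := exists_idem_Ess.choose_spec.2

/-- The data of the induction step. -/
structure DCtx (W : Set (ℤ → ℂ)) (H : Type) [NormedAddCommGroup H] [InnerProductSpace ℂ H]
    [CompleteSpace H] (s₀ s : ℕ) where
  tame : TameAlg W
  u : ℤ → H
  hu : ∀ n, ‖u n‖ ≤ 1
  K : H →L[ℂ] H
  hK : CorrOp u K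
  P : DSys
  met : TopologicalSpace.MetrizableSpace P.X
  ord : P.Ord s₀
  hs : s₀ ≤ s
  w : P.X
  G : ℤ → C(P.X, ℂ)
  hG : ∀ h : ℤ, Null (fun n => (inner ℂ (K (u n)) (K (u (n + h))) : ℂ) - G h ((P.T ^ n) w))
  h3 : ∀ f : H, (fun n => (inner ℂ f (u n) : ℂ)) ∈ W
  h4 : ∀ c : ℤ → ℂ, Bdd c → CubeNull (Fin (s + 1)) c → WTendsto (fun n => c n • u n) 0

namespace DCtx

variable {W : Set (ℤ → ℂ)} {H : Type} [NormedAddCommGroup H] [InnerProductSpace ℂ H]
  [CompleteSpace H] {s₀ s : ℕ} (D : DCtx W H s₀ s)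

/-- the compact set containing the `K u_n` -/
abbrev Z : Type := KK D.K

instance : CompactSpace D.Z := isCompact_iff_compactSpace.mp D.hK.isCompact_KK

/-- the big system -/
def Y : DSys := shiftSys D.P D.Z

/-- the sequence `K u_n` -/
def B (n : ℤ) : D.Z := ⟨D.K (D.u n), CorrOp.apply_mem_KK D.hu n⟩

/-- the base point -/
def y₀ : D.Y.X := (D.w, D.B)

/-- first coordinate -/
def fst (z : D.Y.X) : D.P.X := Prod.fst z

/-- the vectors of a point -/
def vec (z : D.Y.X) (n : ℤ) : H := ((Prod.snd z : ℤ → D.Z) n : H)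

theorem vec_mem (z : D.Y.X) (n : ℤ) : D.vec z n ∈ KK D.K := ((Prod.snd z : ℤ → D.Z) n).2

theorem continuous_fst : Continuous D.fst := _root_.continuous_fst

theorem continuous_vec (n : ℤ) : Continuous fun z => D.vec z n :=
  continuous_subtype_val.comp ((continuous_apply n).comp continuous_snd)

theorem ext {z z' : D.Y.X} (h1 : D.fst z = D.fst z') (h2 : ∀ n, D.vec z n = D.vec z' n) : z = z' :=
  Prod.ext h1 (funext fun n => Subtype.ext (h2 n))

theorem zpow_apply (m : ℤ) (z : D.Y.X) :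
    (D.Y.T ^ m) z = ((D.P.T ^ m) (D.fst z), fun n => (Prod.snd z : ℤ → D.Z) (n + m)) :=
  shiftSys_zpow D.P D.Z m (Prod.fst z) (Prod.snd z)

theorem fst_zpow (m : ℤ) (z : D.Y.X) : D.fst ((D.Y.T ^ m) z) = (D.P.T ^ m) (D.fst z) := by
  rw [zpow_apply]; rfl

theorem vec_zpow (m : ℤ) (z : D.Y.X) (n : ℤ) : D.vec ((D.Y.T ^ m) z) n = D.vec z (n + m) := by
  rw [zpow_apply]; rfl

theorem fst_T (z : D.Y.X) : D.fst (D.Y.T z) = D.P.T (D.fst z) := by
  have := D.fst_zpow 1 z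
  simpa using this

theorem vec_y₀ (n : ℤ) : D.vec D.y₀ n = D.K (D.u n) := rfl

theorem fst_y₀ : D.fst D.y₀ = D.w := rfl

/-- the coordinate functions -/
noncomputable def crd (f : H) : C(D.Y.X, ℂ) :=
  ⟨fun z => inner ℂ f (D.vec z 0), continuous_const.inner (D.continuous_vec 0)⟩

theorem crd_apply (f : H) (z : D.Y.X) : D.crd f z = inner ℂ f (D.vec z 0) := rfl

theorem crd_zpow (f : H) (n : ℤ) (z : D.Y.X) : D.crd f ((D.Y.T ^ n) z) = inner ℂ f (D.vec z n) := by
  rw [crd_apply, vec_zpow, zero_add]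

/-- the base point is tame -/
theorem tame_y₀ : TamePt W D.Y D.y₀ := by
  refine tamePt_shiftSys D.tame (P := D.P) (w := D.w) ?_ D.B ?_
  · intro F
    exact D.tame.ord s₀ _ ⟨D.P, D.met, D.ord, D.w, F, fun n => rfl⟩
  · intro f k
    have h1 := D.tame.shift _ (D.h3 (D.K f)) k
    have h2 : (fun n => (inner ℂ f (D.B (n + k) : H) : ℂ)) =
        fun n => inner ℂ (D.K f) (D.u (n + k)) := by
      funext n
      exact (D.hK.symm f (D.u (n + k))).symm
    rw [h2]; exact h1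

/-- the Gram defect -/
noncomputable def gd (h : ℤ) : C(D.Y.X, ℂ) :=
  ⟨fun z => inner ℂ (D.vec z 0) (D.vec z h) - D.G h (D.fst z),
    ((D.continuous_vec 0).inner (D.continuous_vec h)).sub ((D.G h).continuous.comp D.continuous_fst)⟩

theorem gd_zpow (h n : ℤ) (z : D.Y.X) : D.gd h ((D.Y.T ^ n) z) =
    inner ℂ (D.vec z n) (D.vec z (h + n)) - D.G h ((D.P.T ^ n) (D.fst z)) := by
  change (inner ℂ (D.vec ((D.Y.T ^ n) z) 0) (D.vec ((D.Y.T ^ n) z) h) : ℂ)
    - D.G h (D.fst ((D.Y.T ^ n) z)) = _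
  rw [vec_zpow, vec_zpow, fst_zpow, zero_add]

theorem gd_null (h : ℤ) : Null (fun n : ℤ => D.gd h ((D.Y.T ^ n) D.y₀)) := by
  have h1 := D.hG h
  have h2 : (fun n : ℤ => D.gd h ((D.Y.T ^ n) D.y₀)) =
      fun n => (inner ℂ (D.K (D.u n)) (D.K (D.u (n + h))) : ℂ) - D.G h ((D.P.T ^ n) D.w) := by
    funext n
    rw [gd_zpow, vec_y₀, vec_y₀, fst_y₀, add_comm h n]
  rw [h2]; exact h1

/-- the new base point -/
noncomputable def x₀ : D.Y.X := pact D.Y.T pE D.y₀

theorem pact_x₀ : pact D.Y.T pE D.x₀ = D.x₀ := by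
  rw [x₀, ← pact_add, pE_idem]

/-- the system generated by the new base point -/
noncomputable def Q : DSys := D.Y.orb D.x₀

/-- a point of the subsystem as a point of the big system -/
def val (z : D.Q.X) : D.Y.X := Subtype.val z

theorem continuous_val : Continuous D.val := continuous_subtype_val

theorem val_injective : Function.Injective D.val := Subtype.val_injective

theorem val_mem (z : D.Q.X) : D.val z ∈ orbC D.Y.T D.x₀ := z.2

theorem val_T (z : D.Q.X) : D.val (D.Q.T z) = D.Y.T (D.val z) := rfl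

theorem val_zpow (n : ℤ) (z : D.Q.X) : D.val ((D.Q.T ^ n) z) = (D.Y.T ^ n) (D.val z) :=
  equi_zpow D.val_T n z

theorem val_pact (r : Ultrafilter ℤ) (z : D.Q.X) : D.val (pact D.Q.T r z) = pact D.Y.T r (D.val z) :=
  map_pact D.continuous_val D.val_T r z

theorem x₀_mem : D.x₀ ∈ orbC D.Y.T D.x₀ := subset_closure ⟨0, by simp⟩

/-- the new base point in the subsystem -/
noncomputable def q₀ : D.Q.X := ⟨D.x₀, D.x₀_mem⟩

theorem val_q₀ : D.val D.q₀ = D.x₀ := rfl

theorem exists_pact_q₀ (z : D.Q.X) : ∃ r : Ultrafilter ℤ, pact D.Q.T r D.q₀ = z := by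
  obtain ⟨r, hr⟩ := exists_pact_of_mem_closure (D.val_mem z)
  exact ⟨r, D.val_injective (by rw [val_pact, val_q₀, hr])⟩

theorem exists_ess (z : D.Q.X) : ∃ r ∈ Ess, pact D.Y.T r D.y₀ = D.val z := by
  obtain ⟨r, hr⟩ := exists_pact_of_mem_closure (D.val_mem z)
  exact ⟨r + pE, Ess_add_mem r pE_mem, by rw [pact_add]; exact hr⟩

theorem val_mem_y₀ (z : D.Q.X) : D.val z ∈ orbC D.Y.T D.y₀ := by
  obtain ⟨r, _, hr⟩ := D.exists_ess z
  exact mem_closure_orbit_iff.2 ⟨r, hr⟩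

/-- continuous functions with null sequence at the base point vanish on the subsystem -/
theorem eq_zero_of_null {F : C(D.Y.X, ℂ)} (hF : Null (fun n : ℤ => F ((D.Y.T ^ n) D.y₀)))
    (z : D.Q.X) : F (D.val z) = 0 := by
  obtain ⟨r, hr, hrz⟩ := D.exists_ess z
  have hb : Bdd (fun n : ℤ => F ((D.Y.T ^ n) D.y₀)) := ⟨‖F‖, fun n => F.norm_coe_le_norm _⟩
  have h1 := (null_iff_Ess hb).1 hF r hr
  have h2 : Tendsto (fun n : ℤ => F ((D.Y.T ^ n) D.y₀)) r (𝓝 (F (pact D.Y.T r D.y₀))) :=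
    (F.continuous.tendsto _).comp (tendsto_pact D.Y.T r D.y₀)
  rw [hrz] at h2
  exact tendsto_nhds_unique h2 h1

/-- the Gram matrices of the points of the subsystem -/
theorem gram (z : D.Q.X) (m n : ℤ) :
    (inner ℂ (D.vec (D.val z) m) (D.vec (D.val z) n) : ℂ) =
      D.G (n - m) ((D.P.T ^ m) (D.fst (D.val z))) := by
  have h := D.eq_zero_of_null (D.gd_null (n - m)) ((D.Q.T ^ m) z)
  rw [val_zpow, gd_zpow, sub_eq_zero] at h
  rw [← h]
  congr 2
  ring

/-- the vectors of a point of the subsystem span the orthogonal complement of the kernel -/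
theorem ker_of_orth (z : D.Q.X) {f : H} (h : ∀ n, (inner ℂ f (D.vec (D.val z) n) : ℂ) = 0) :
    D.K f = 0 := by
  refine CorrOp.ker_of_avg D.hu D.hK ?_
  set F : C(D.Y.X, ℂ) := ⟨fun z => ((‖(inner ℂ f (D.vec z 0) : ℂ)‖ ^ 2 : ℝ) : ℂ), by
    exact Complex.continuous_ofReal.comp
      ((continuous_const.inner (D.continuous_vec 0)).norm.pow 2)⟩ with hF
  have hFz : ∀ (n : ℤ) (y : D.Y.X), F ((D.Y.T ^ n) y) =
      ((‖(inner ℂ f (D.vec y n) : ℂ)‖ ^ 2 : ℝ) : ℂ) := by
    intro n y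
    change ((‖(inner ℂ f (D.vec ((D.Y.T ^ n) y) 0) : ℂ)‖ ^ 2 : ℝ) : ℂ) = _
    rw [vec_zpow, zero_add]
  obtain ⟨a, ha⟩ := D.tame_y₀.win D.tame F
  have ha0 : a = 0 := by
    have h1 : ∀ ε : ℝ, 0 < ε → ‖a‖ ≤ ε := by
      intro ε hε
      obtain ⟨N, hN⟩ := ha ε hε
      have h2 := hN _ (D.val_mem_y₀ z) 0 N le_rfl
      simp_rw [hFz, h] at h2
      have h3 : avg (MP_e326dc_an.win 0 N) (fun _ : ℤ => (((‖(0 : ℂ)‖ ^ 2 : ℝ)) : ℂ)) = 0 := by
        simp [avg]
      rw [h3, zero_sub, norm_neg] at h2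
      exact h2
    exact norm_le_zero_iff.1 (le_of_forall_pos_le_add (by simpa using h1))
  intro ε hε
  obtain ⟨N, hN⟩ := ha ε hε
  refine ⟨N, fun M L hL => ?_⟩
  have h2 := hN D.y₀ (subset_closure ⟨0, by simp⟩) M L hL
  simp_rw [hFz] at h2
  rw [ha0, sub_zero] at h2
  rw [sub_zero]
  refine le_trans (le_of_eq ?_) h2
  have h3 : avg (MP_e326dc_an.win M L)
      (fun n => (((‖(inner ℂ f (D.vec D.y₀ n) : ℂ)‖ ^ 2 : ℝ)) : ℂ)) =
      ((avg (MP_e326dc_an.win M L) (fun n => ‖(inner ℂ f (D.K (D.u n)) : ℂ)‖ ^ 2) : ℝ) : ℂ) := by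
    simp only [avg, Complex.real_smul, smul_eq_mul, Complex.ofReal_mul, Complex.ofReal_sum]
    rfl
  rw [h3, Complex.norm_real]

theorem eq_of_inner (z : D.Q.X) {v v' : H} (hv : v ∈ KK D.K) (hv' : v' ∈ KK D.K)
    (h : ∀ n, (inner ℂ v (D.vec (D.val z) n) : ℂ) = inner ℂ v' (D.vec (D.val z) n)) : v = v' := by
  have h1 : D.K (v - v') = 0 := D.ker_of_orth z fun n => by rw [inner_sub_left, h, sub_self]
  have h2 := D.hK.inner_KK h1 hv
  have h3 := D.hK.inner_KK h1 hv'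
  have h4 : (inner ℂ (v - v') (v - v') : ℂ) = 0 := by rw [inner_sub_right, h2, h3, sub_zero]
  exact sub_eq_zero.1 (inner_self_eq_zero.1 h4)

/-- the vectors of `r.z` -/
theorem tendsto_vec (r : Ultrafilter ℤ) (z : D.Y.X) (n : ℤ) :
    Tendsto (fun m : ℤ => D.vec z (n + m)) r (𝓝 (D.vec (pact D.Y.T r z) n)) := by
  have := ((D.continuous_vec n).tendsto _).comp (tendsto_pact D.Y.T r z)
  refine this.congr fun m => ?_
  exact D.vec_zpow m z n

theorem fst_pact (r : Ultrafilter ℤ) (z : D.Y.X) :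
    D.fst (pact D.Y.T r z) = pact D.P.T r (D.fst z) :=
  map_pact D.continuous_fst D.fst_T r z

/-- D3 -/
theorem distalU : DistalU D.Q.T := by
  intro r hr z
  refine D.val_injective ?_
  set z' := pact D.Q.T r z with hz'
  have hrz' : pact D.Q.T r z' = z' := by rw [hz', ← pact_add, hr]
  have hPd : DistalU D.P.T := D.ord.uniq.distalU
  have hfst : D.fst (D.val z') = D.fst (D.val z) := by
    rw [hz', val_pact, fst_pact, hPd r hr]
  refine D.ext hfst fun n => ?_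
  refine D.eq_of_inner z' (D.vec_mem _ _) (D.vec_mem _ _) fun k => ?_
  -- both sides are limits of Gram entries
  have h1 : Tendsto (fun m : ℤ => (inner ℂ (D.vec (D.val z) n) (D.vec (D.val z) (k + m)) : ℂ)) r
      (𝓝 (inner ℂ (D.vec (D.val z) n) (D.vec (D.val z') k))) := by
    have := D.tendsto_vec r (D.val z) k
    rw [← val_pact] at this
    exact Tendsto.inner tendsto_const_nhds this
  have h2 : Tendsto (fun m : ℤ => (inner ℂ (D.vec (D.val z') n) (D.vec (D.val z') (k + m)) : ℂ)) r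
      (𝓝 (inner ℂ (D.vec (D.val z') n) (D.vec (D.val z') k))) := by
    have := D.tendsto_vec r (D.val z') k
    rw [← val_pact, hrz'] at this
    exact Tendsto.inner tendsto_const_nhds this
  have h3 : (fun m : ℤ => (inner ℂ (D.vec (D.val z) n) (D.vec (D.val z) (k + m)) : ℂ)) =
      fun m : ℤ => (inner ℂ (D.vec (D.val z') n) (D.vec (D.val z') (k + m)) : ℂ) := by
    funext m
    rw [gram, gram, hfst]
  rw [h3] at h1
  exact tendsto_nhds_unique h2 h1

theorem isMin : IsMin D.Q.T := by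
  intro z y
  -- q₀ is in the orbit closure of z, and y in the orbit closure of q₀
  obtain ⟨r, hr⟩ := D.exists_pact_q₀ z
  obtain ⟨t, ht⟩ := D.exists_pact_q₀ y
  obtain ⟨r', hr'⟩ := D.distalU.exists_inv r
  refine mem_closure_orbit_iff.2 ⟨t + r', ?_⟩
  rw [pact_add, ← hr, (hr' _).1, ht]

end DCtx

end MP_e326dc_an
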