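import Pool.Agent.Lib.MP_e326dc_an.D.Main1

/-!
# MP_e326dc_an, part D: the order of the new system (D5)
-/

set_option autoImplicit false

open Filter Topology
open scoped ComplexConjugate

namespace MP_e326dc_an

attribute [local instance] Ultrafilter.add Ultrafilter.addSemigroup

theorem contin_of_closed_graph {X Y : Type*} [TopologicalSpace X] [TopologicalSpace Y]
    [CompactSpace Y] {f : X → Y} (h : IsClosed {p : X × Y | p.2 = f p.1}) : Continuous f := by
  rw [continuous_iff_isClosed]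
  intro C hC
  have e : f ⁻¹' C = Prod.fst '' ({p : X × Y | p.2 = f p.1} ∩ Prod.snd ⁻¹' C) := by
    ext x
    constructor
    · intro hx; exact ⟨(x, f x), ⟨rfl, hx⟩, rfl⟩
    · rintro ⟨⟨x', y⟩, ⟨h1, h2⟩, rfl⟩
      simp only [Set.mem_ofPred_eq, Set.mem_preimage] at h1 h2 ⊢
      rw [← h1]; exact h2
  rw [e]
  exact isClosedMap_fst_of_compactSpace _ (h.inter (hC.preimage continuous_snd))

namespace DCtx

variable {W : Set (ℤ → ℂ)} {H : Type} [NormedAddCommGroup H] [InnerProductSpace ℂ H]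
  [CompleteSpace H] {s₀ s : ℕ} (D : DCtx W H s₀ s)

/-- the relation `z' = θ z` -/
def Rel (x' z z' : D.Q.X) : Prop :=
  D.fst (D.val z') = D.fst (D.val z) ∧ ∀ k j : ℤ,
    (inner ℂ (D.vec (D.val z') k) (D.vec (D.val x') j) : ℂ) =
      inner ℂ (D.vec (D.val z) k) (D.vec (D.val D.q₀) j)

theorem Rel.unique {x' z z₁ z₂ : D.Q.X} (h₁ : D.Rel x' z z₁) (h₂ : D.Rel x' z z₂) : z₁ = z₂ := by
  refine D.val_injective (D.ext (h₁.1.trans h₂.1.symm) fun n => ?_)
  exact D.eq_of_inner x' (D.vec_mem _ _) (D.vec_mem _ _) fun k => (h₁.2 n k).trans (h₂.2 n k).symm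

theorem rel_pact {x' : D.Q.X} (hx : D.fst (D.val x') = D.fst (D.val D.q₀)) (r : Ultrafilter ℤ) :
    D.Rel x' (pact D.Q.T r D.q₀) (pact D.Q.T r x') := by
  refine ⟨by rw [val_pact, val_pact, fst_pact, fst_pact, hx], fun k j => ?_⟩
  have h1 : Tendsto (fun m : ℤ => (inner ℂ (D.vec (D.val x') (k + m)) (D.vec (D.val x') j) : ℂ)) r
      (𝓝 (inner ℂ (D.vec (D.val (pact D.Q.T r x')) k) (D.vec (D.val x') j))) := by
    rw [val_pact]
    exact (D.tendsto_vec r (D.val x') k).inner tendsto_const_nhds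
  have h2 : Tendsto (fun m : ℤ => (inner ℂ (D.vec (D.val D.q₀) (k + m)) (D.vec (D.val D.q₀) j) : ℂ)) r
      (𝓝 (inner ℂ (D.vec (D.val (pact D.Q.T r D.q₀)) k) (D.vec (D.val D.q₀) j))) := by
    rw [val_pact]
    exact (D.tendsto_vec r (D.val D.q₀) k).inner tendsto_const_nhds
  have h3 : (fun m : ℤ => (inner ℂ (D.vec (D.val x') (k + m)) (D.vec (D.val x') j) : ℂ)) =
      fun m : ℤ => (inner ℂ (D.vec (D.val D.q₀) (k + m)) (D.vec (D.val D.q₀) j) : ℂ) := by
    funext m
    rw [gram, gram, hx]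
  rw [h3] at h1
  exact tendsto_nhds_unique h1 h2

theorem exists_rel {x' : D.Q.X} (hx : D.fst (D.val x') = D.fst (D.val D.q₀)) (z : D.Q.X) :
    ∃ z', D.Rel x' z z' := by
  obtain ⟨r, rfl⟩ := D.exists_pact_q₀ z
  exact ⟨_, D.rel_pact hx r⟩

/-- the map `θ` -/
theorem exists_theta {x' : D.Q.X} (hx : D.fst (D.val x') = D.fst (D.val D.q₀)) :
    ∃ θ : D.Q.X → D.Q.X, Continuous θ ∧ (∀ z, θ (D.Q.T z) = D.Q.T (θ z)) ∧ θ D.q₀ = x' := by
  choose θ hθ using D.exists_rel hx
  refine ⟨θ, ?_, fun z => ?_, ?_⟩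
  · refine contin_of_closed_graph ?_
    have e : {p : D.Q.X × D.Q.X | p.2 = θ p.1} = {p : D.Q.X × D.Q.X | D.Rel x' p.1 p.2} := by
      ext p
      constructor
      · intro h; simp only [Set.mem_ofPred_eq] at h ⊢; rw [h]; exact hθ _
      · intro h; exact Rel.unique D h (hθ _)
    rw [e]
    have c1 : ∀ n, Continuous fun z : D.Q.X => D.vec (D.val z) n := fun n =>
      (D.continuous_vec n).comp D.continuous_val
    have c2 : Continuous fun z : D.Q.X => D.fst (D.val z) := D.continuous_fst.comp D.continuous_val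
    have e2 : {p : D.Q.X × D.Q.X | D.Rel x' p.1 p.2} =
        {p | D.fst (D.val p.2) = D.fst (D.val p.1)} ∩ ⋂ k : ℤ, ⋂ j : ℤ,
          {p | (inner ℂ (D.vec (D.val p.2) k) (D.vec (D.val x') j) : ℂ) =
            inner ℂ (D.vec (D.val p.1) k) (D.vec (D.val D.q₀) j)} := by
      ext p
      simp only [Rel, Set.mem_ofPred_eq, Set.mem_inter_iff, Set.mem_iInter]
    rw [e2]
    refine (isClosed_eq (c2.comp continuous_snd) (c2.comp _root_.continuous_fst)).inter ?_
    refine isClosed_iInter fun k => isClosed_iInter fun j => ?_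
    exact isClosed_eq (((c1 k).comp continuous_snd).inner continuous_const)
      (((c1 k).comp _root_.continuous_fst).inner continuous_const)
  · refine Rel.unique D (hθ _) ?_
    have h := hθ z
    refine ⟨?_, fun k j => ?_⟩
    · rw [val_T, val_T, fst_T, fst_T, h.1]
    · have e : ∀ y : D.Q.X, D.vec (D.val (D.Q.T y)) k = D.vec (D.val y) (k + 1) := by
        intro y
        have := D.vec_zpow 1 (D.val y) k
        rw [zpow_one] at this
        rw [val_T]; exact this
      rw [e, e]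
      exact h.2 (k + 1) j
  · refine Rel.unique D (hθ _) ⟨hx, fun k j => ?_⟩
    rw [gram, gram, hx]

/-- membership in the closure of the cubic orbit of the tame point -/
theorem val_cube_mem {ι : Type} [Fintype ι] [DecidableEq ι] {c : Finset ι → D.Q.X}
    (hc : c ∈ Cub D.Q.T ι) : (fun A => D.val (c A)) ∈ cubOrb D.Y D.y₀ ι := by
  -- the constant cube x₀
  have h0 : (fun _ : Finset ι => D.x₀) ∈ cubOrb D.Y D.y₀ ι := by
    have hcont : Continuous fun y : D.Y.X => (fun _ : Finset ι => y) :=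
      continuous_pi fun _ => continuous_id
    have hx : D.x₀ ∈ closure (Set.range fun n : ℤ => (D.Y.T ^ n) D.y₀) :=
      mem_closure_orbit_iff.2 ⟨pE, rfl⟩
    refine map_mem_closure hcont hx ?_
    rintro _ ⟨n, rfl⟩
    refine ⟨fun o => o.elim n fun _ => 0, ?_⟩
    funext A
    simp [cact, expo]
  -- invariance
  have hinv : ∀ (v : Option ι → ℤ) (d : Finset ι → D.Y.X), d ∈ cubOrb D.Y D.y₀ ι →
      cact D.Y.T v d ∈ cubOrb D.Y D.y₀ ι := by
    intro v d hd
    refine map_mem_closure (continuous_cact D.Y.T v) hd ?_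
    rintro _ ⟨v', rfl⟩
    exact ⟨v + v', cact_add _ _ _ _⟩
  have h1 := Cub_subset_closure D.isMin D.q₀ hc
  have hcont : Continuous fun d : Finset ι → D.Q.X => (fun A => D.val (d A)) :=
    continuous_pi fun A => D.continuous_val.comp (continuous_apply A)
  have h2 : (fun A => D.val (c A)) ∈ closure (cubOrb D.Y D.y₀ ι) := by
    refine map_mem_closure hcont h1 ?_
    rintro _ ⟨v, rfl⟩
    have e : (fun A => D.val (cact D.Q.T v (fun _ : Finset ι => D.q₀) A)) =
        cact D.Y.T v (fun _ => D.x₀) := by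
      funext A
      simp only [cact]
      rw [val_zpow]; rfl
    change (fun A => D.val (cact D.Q.T v (fun _ : Finset ι => D.q₀) A)) ∈ _
    rw [e]
    exact hinv v _ h0
  rwa [cubOrb, closure_closure] at h2

end DCtx

end MP_e326dc_an
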