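import Pool.Agent.Lib.MP_e326dc_an.D.Main2

/-!
# MP_e326dc_an, part D: the order of the new system (D5), conclusion
-/

set_option autoImplicit false

open Filter Topology
open scoped ComplexConjugate

namespace MP_e326dc_an

attribute [local instance] Ultrafilter.add Ultrafilter.addSemigroup

theorem continuous_cconj {ι : Type*} (S : Finset ι) : Continuous (cconj S) := by
  by_cases h : Even S.card
  · have : cconj S = fun z => z := by funext z; simp [cconj, h]
    rw [this]; exact continuous_id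
  · have : cconj S = fun z => conj z := by funext z; simp [cconj, h]
    rw [this]; exact Complex.continuous_conj

theorem cconj_sub {ι : Type*} (S : Finset ι) (z w : ℂ) : cconj S (z - w) = cconj S z - cconj S w := by
  simp only [cconj]; split_ifs <;> simp

theorem wtendsto_ofReal_iff {f : ℤ → ℝ} {a : ℝ} (h : WTendsto (fun n => ((f n : ℝ) : ℂ)) (a : ℂ)) :
    WTendsto f a := by
  intro ε hε
  obtain ⟨N, hN⟩ := h ε hε
  refine ⟨N, fun M L hL => ?_⟩
  have h1 := hN M L hL
  have h2 : avg (win M L) (fun n => ((f n : ℝ) : ℂ)) = ((avg (win M L) f : ℝ) : ℂ) := by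
    simp only [avg, Complex.real_smul, smul_eq_mul, Complex.ofReal_mul, Complex.ofReal_sum]
  rw [h2, ← Complex.ofReal_sub, Complex.norm_real] at h1
  exact h1

theorem WTendsto.re {f : ℤ → ℂ} {a : ℂ} (h : WTendsto f a) : WTendsto (fun n => (f n).re) a.re :=
  WTendsto.clm Complex.reCLM h

namespace DCtx

variable {W : Set (ℤ → ℂ)} {H : Type} [NormedAddCommGroup H] [InnerProductSpace ℂ H]
  [CompleteSpace H] {s₀ s : ℕ} (D : DCtx W H s₀ s)

theorem y₀_mem : D.y₀ ∈ orbC D.Y.T D.y₀ := subset_closure ⟨0, by simp⟩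

/-- the window averages at points of the subsystem -/
theorem exists_wlim (F : C(D.Y.X, ℂ)) : ∃ a : ℂ, WTendsto (fun n : ℤ => F ((D.Y.T ^ n) D.y₀)) a ∧
    ∀ z : D.Q.X, WTendsto (fun n : ℤ => F (D.val ((D.Q.T ^ n) z))) a := by
  obtain ⟨a, ha⟩ := D.tame_y₀.win D.tame F
  refine ⟨a, fun ε hε => ?_, fun z ε hε => ?_⟩
  · obtain ⟨N, hN⟩ := ha ε hε
    exact ⟨N, fun M L hL => hN _ D.y₀_mem M L hL⟩
  · obtain ⟨N, hN⟩ := ha ε hε
    refine ⟨N, fun M L hL => ?_⟩
    simp_rw [val_zpow]
    exact hN _ (D.val_mem_y₀ z) M L hL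

/-- Tietze extension -/
theorem exists_ext (b : C(D.Q.X, ℂ)) : ∃ b' : C(D.Y.X, ℂ), ∀ z : D.Q.X, b' (D.val z) = b z := by
  have hcl : IsClosed (orbC D.Y.T D.x₀) := isClosed_closure
  obtain ⟨g, hg⟩ := ContinuousMap.exists_restrict_eq (s := orbC D.Y.T D.x₀) hcl b
  refine ⟨g, fun z => ?_⟩
  have := congrArg (fun φ : C(orbC D.Y.T D.x₀, ℂ) => φ z) hg
  exact this

/-- the key cancellation -/
theorem cubeNull_of_theta {x' : D.Q.X}
    (hx : (fun S : Finset (Fin (s + 1)) => if S = Finset.univ then x' else D.q₀) ∈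
      Cub D.Q.T (Fin (s + 1)))
    {θ : D.Q.X → D.Q.X} (hθT : ∀ z, θ (D.Q.T z) = D.Q.T (θ z))
    (hθ : θ D.q₀ = x') (F : C(D.Y.X, ℂ)) (b : C(D.Y.X, ℂ))
    (hb : ∀ z : D.Q.X, b (D.val z) = F (D.val z) - F (D.val (θ z))) :
    CubeNull (Fin (s + 1)) (fun n => b ((D.Y.T ^ n) D.y₀)) := by
  classical
  set cc : Finset (Fin (s + 1)) → C(D.Y.X, ℂ) → C(D.Y.X, ℂ) := fun S g =>
    ⟨fun z => cconj S (g z), (continuous_cconj S).comp g.continuous⟩ with hcc
  obtain ⟨a, ha⟩ := D.tame_y₀.cube D.tame (Fin (s + 1)) (fun S => cc S b)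
  obtain ⟨a', ha'⟩ := D.tame_y₀.cube D.tame (Fin (s + 1))
    (fun S => if S = Finset.univ then cc S F else cc S b)
  -- the two cubes
  have m1 := D.val_cube_mem (const_mem_Cub (T := D.Q.T) (ι := Fin (s + 1)) D.q₀)
  have m2 := D.val_cube_mem hx
  -- pointwise identity
  have key : ∀ v : Option (Fin (s + 1)) → ℤ,
      (∏ S, (cc S b) (cact D.Y.T v (fun A => D.val ((fun _ => D.q₀ : Finset (Fin (s+1)) → D.Q.X) A)) S)) =
      (∏ S, (if S = Finset.univ then cc S F else cc S b)
        (cact D.Y.T v (fun A => D.val ((fun _ => D.q₀ : Finset (Fin (s+1)) → D.Q.X) A)) S)) -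
      ∏ S, (if S = Finset.univ then cc S F else cc S b)
        (cact D.Y.T v (fun A => D.val ((fun S : Finset (Fin (s + 1)) =>
          if S = Finset.univ then x' else D.q₀) A)) S) := by
    intro v
    rw [← Finset.mul_prod_erase Finset.univ _ (Finset.mem_univ (Finset.univ : Finset (Fin (s+1)))),
      ← Finset.mul_prod_erase Finset.univ _ (Finset.mem_univ (Finset.univ : Finset (Fin (s+1)))),
      ← Finset.mul_prod_erase Finset.univ _ (Finset.mem_univ (Finset.univ : Finset (Fin (s+1))))]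
    have e1 : ∀ S ∈ (Finset.univ : Finset (Finset (Fin (s+1)))).erase Finset.univ,
        (if S = Finset.univ then cc S F else cc S b)
        (cact D.Y.T v (fun A => D.val ((fun _ => D.q₀ : Finset (Fin (s+1)) → D.Q.X) A)) S) =
        (cc S b) (cact D.Y.T v (fun A => D.val ((fun _ => D.q₀ : Finset (Fin (s+1)) → D.Q.X) A)) S) := by
      intro S hS
      rw [if_neg (Finset.ne_of_mem_erase hS)]
    have e2 : ∀ S ∈ (Finset.univ : Finset (Finset (Fin (s+1)))).erase Finset.univ,
        (if S = Finset.univ then cc S F else cc S b)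
        (cact D.Y.T v (fun A => D.val ((fun S : Finset (Fin (s + 1)) =>
          if S = Finset.univ then x' else D.q₀) A)) S) =
        (cc S b) (cact D.Y.T v (fun A => D.val ((fun _ => D.q₀ : Finset (Fin (s+1)) → D.Q.X) A)) S) := by
      intro S hS
      rw [if_neg (Finset.ne_of_mem_erase hS)]
      simp only [cact, if_neg (Finset.ne_of_mem_erase hS)]
    rw [Finset.prod_congr rfl e1, Finset.prod_congr rfl e2, ← sub_mul]
    congr 1
    simp only [if_true, hcc, ContinuousMap.coe_mk, cact]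
    rw [← val_zpow, ← val_zpow, hb, cconj_sub, equi_zpow hθT, hθ]
  have ha0 : a = 0 := by
    have h1 : ∀ ε : ℝ, 0 < ε → ‖a‖ ≤ ε := by
      intro ε hε
      obtain ⟨N, hN⟩ := ha (ε / 3) (by positivity)
      obtain ⟨N', hN'⟩ := ha' (ε / 3) (by positivity)
      have t1 := hN _ m1 (fun _ => 0) (fun _ => max N N') (fun _ => le_max_left _ _)
      have t2 := hN' _ m1 (fun _ => 0) (fun _ => max N N') (fun _ => le_max_right _ _)
      have t3 := hN' _ m2 (fun _ => 0) (fun _ => max N N') (fun _ => le_max_right _ _)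
      simp_rw [key] at t1
      rw [avg_sub] at t1
      set A1 := avg (box (fun _ : Option (Fin (s + 1)) => (0 : ℤ)) (fun _ => max N N')) (fun v =>
        ∏ S, (if S = Finset.univ then cc S F else cc S b)
        (cact D.Y.T v (fun A => D.val ((fun _ => D.q₀ : Finset (Fin (s+1)) → D.Q.X) A)) S)) with hA1
      set A2 := avg (box (fun _ : Option (Fin (s + 1)) => (0 : ℤ)) (fun _ => max N N')) (fun v =>
        ∏ S, (if S = Finset.univ then cc S F else cc S b)
        (cact D.Y.T v (fun A => D.val ((fun S : Finset (Fin (s + 1)) =>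
          if S = Finset.univ then x' else D.q₀) A)) S)) with hA2
      have e : a = -((A1 - A2) - a) + (A1 - a') - (A2 - a') := by ring
      rw [e]
      refine (norm_sub_le _ _).trans ((add_le_add (norm_add_le _ _) le_rfl).trans ?_)
      rw [norm_neg]
      have := add_le_add (add_le_add t1 t2) t3
      refine this.trans (by linarith)
    exact norm_le_zero_iff.1 (le_of_forall_pos_le_add (by simpa using h1))
  intro ε hε
  obtain ⟨N, hN⟩ := ha ε hε
  refine ⟨N, fun M L hL => ?_⟩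
  have h0 : (fun _ : Finset (Fin (s + 1)) => D.y₀) ∈ cubOrb D.Y D.y₀ (Fin (s + 1)) :=
    subset_closure ⟨0, by funext A; simp [cact, expo]⟩
  have := hN _ h0 M L hL
  rw [ha0] at this
  exact this

/-- the coordinate functions are `θ`-invariant -/
theorem crd_theta {x' : D.Q.X}
    (hx : (fun S : Finset (Fin (s + 1)) => if S = Finset.univ then x' else D.q₀) ∈
      Cub D.Q.T (Fin (s + 1)))
    {θ : D.Q.X → D.Q.X} (hθc : Continuous θ) (hθT : ∀ z, θ (D.Q.T z) = D.Q.T (θ z))
    (hθ : θ D.q₀ = x') (f : H) (z : D.Q.X) : D.crd f (D.val z) = D.crd f (D.val (θ z)) := by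
  -- the function F₁ = conj of the coordinate
  set F₁ : C(D.Y.X, ℂ) := ⟨fun z => conj (D.crd f z), Complex.continuous_conj.comp (D.crd f).continuous⟩
    with hF₁
  obtain ⟨b, hb⟩ := D.exists_ext ⟨fun z => F₁ (D.val z) - F₁ (D.val (θ z)),
    (F₁.continuous.comp D.continuous_val).sub (F₁.continuous.comp (D.continuous_val.comp hθc))⟩
  have hb' : ∀ z : D.Q.X, b (D.val z) = F₁ (D.val z) - F₁ (D.val (θ z)) := hb
  have hcn := D.cubeNull_of_theta hx hθT hθ F₁ b hb'
  have hbd : Bdd (fun n : ℤ => b ((D.Y.T ^ n) D.y₀)) := ⟨‖b‖, fun n => b.norm_coe_le_norm _⟩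
  have h4 := D.h4 _ hbd hcn
  -- apply the functional ⟪f, K ·⟫
  have h5 : WTendsto (fun n : ℤ => b ((D.Y.T ^ n) D.y₀) * D.crd f ((D.Y.T ^ n) D.y₀)) 0 := by
    have h6 := WTendsto.clm (((innerSL ℂ f).comp D.K).restrictScalars ℝ) h4
    rw [map_zero] at h6
    have e : (fun n : ℤ => (((innerSL ℂ f).comp D.K).restrictScalars ℝ)
        (b ((D.Y.T ^ n) D.y₀) • D.u n)) =
        fun n : ℤ => b ((D.Y.T ^ n) D.y₀) * D.crd f ((D.Y.T ^ n) D.y₀) := by
      funext n
      simp only [ContinuousLinearMap.coe_restrictScalars', ContinuousLinearMap.coe_comp,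
        Function.comp_apply, map_smul, smul_eq_mul, innerSL_apply_apply]
      rw [crd_zpow, vec_y₀]
    rw [e] at h6
    exact h6
  -- transfer to q₀
  obtain ⟨a, ha1, ha2⟩ := D.exists_wlim (b * D.crd f)
  have ha0 : a = 0 := WTendsto.unique ha1 h5
  have h7 := ha2 D.q₀
  rw [ha0] at h7
  -- the square
  set sq : C(D.Y.X, ℂ) := ⟨fun z => ((‖D.crd f z‖ ^ 2 : ℝ) : ℂ),
    Complex.continuous_ofReal.comp ((D.crd f).continuous.norm.pow 2)⟩ with hsq
  obtain ⟨κ, -, hκ⟩ := D.exists_wlim sq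
  have h8 := (hκ D.q₀).re
  have h9 := (hκ x').re
  have h10 : WTendsto (fun n : ℤ => ‖D.crd f (D.val ((D.Q.T ^ n) D.q₀)) -
      D.crd f (D.val (θ ((D.Q.T ^ n) D.q₀)))‖ ^ 2) (0 : ℝ) := by
    have h11 := (h7.re.add h7.re).add (h9.sub h8)
    have e0 : (0 : ℂ).re + (0 : ℂ).re + (κ.re - κ.re) = 0 := by simp
    rw [e0] at h11
    have e1 : (fun n : ℤ => ((b * D.crd f) (D.val ((D.Q.T ^ n) D.q₀))).re +
        ((b * D.crd f) (D.val ((D.Q.T ^ n) D.q₀))).re +
        ((sq (D.val ((D.Q.T ^ n) x'))).re - (sq (D.val ((D.Q.T ^ n) D.q₀))).re)) =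
        fun n : ℤ => ‖D.crd f (D.val ((D.Q.T ^ n) D.q₀)) -
          D.crd f (D.val (θ ((D.Q.T ^ n) D.q₀)))‖ ^ 2 := by
      funext n
      have e2 : D.val ((D.Q.T ^ n) x') = D.val (θ ((D.Q.T ^ n) D.q₀)) := by
        rw [equi_zpow hθT, hθ]
      rw [e2]
      simp only [ContinuousMap.mul_apply, hb', hF₁, hsq, ContinuousMap.coe_mk, Complex.ofReal_re]
      set A := D.crd f (D.val ((D.Q.T ^ n) D.q₀))
      set B' := D.crd f (D.val (θ ((D.Q.T ^ n) D.q₀)))
      rw [← Complex.normSq_eq_norm_sq, ← Complex.normSq_eq_norm_sq, ← Complex.normSq_eq_norm_sq]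
      simp only [Complex.normSq_apply, Complex.mul_re, Complex.sub_re, Complex.sub_im,
        Complex.conj_re, Complex.conj_im]
      ring
    rw [e1] at h11
    exact h11
  have h12 := null_of_sq h10
  -- the function vanishes by minimality
  have h13 : ∀ ε : ℝ, 0 < ε → ‖D.crd f (D.val z) - D.crd f (D.val (θ z))‖ ≤ ε := by
    intro ε hε
    refine norm_le_of_null D.isMin (F := fun z => D.crd f (D.val z) - D.crd f (D.val (θ z)))
      (((D.crd f).continuous.comp D.continuous_val).sub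
        ((D.crd f).continuous.comp (D.continuous_val.comp hθc))) (z := D.q₀) (ν := fun n => -
        (D.crd f (D.val ((D.Q.T ^ n) D.q₀)) - D.crd f (D.val (θ ((D.Q.T ^ n) D.q₀))))) h12.neg ?_ z
    intro n
    simp only [add_neg_cancel, norm_zero]
    exact hε.le
  exact sub_eq_zero.1 (norm_le_zero_iff.1 (le_of_forall_pos_le_add (by simpa using h13)))

theorem eq_q₀ {x' : D.Q.X}
    (hx : (fun S : Finset (Fin (s + 1)) => if S = Finset.univ then x' else D.q₀) ∈
      Cub D.Q.T (Fin (s + 1))) : x' = D.q₀ := by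
  -- the first coordinates agree
  have hfst : D.fst (D.val x') = D.fst (D.val D.q₀) := by
    have hφ : Continuous fun z : D.Q.X => D.fst (D.val z) := D.continuous_fst.comp D.continuous_val
    have hφT : ∀ z : D.Q.X, D.fst (D.val (D.Q.T z)) = D.P.T (D.fst (D.val z)) := fun z => by
      rw [val_T, fst_T]
    have c1 := Cub_map hφ hφT hx
    have c2 := Cub_map hφ hφT (const_mem_Cub (T := D.Q.T) (ι := Fin (s + 1)) D.q₀)
    have h := (D.ord.uniq.mono D.hs) _ c1 _ c2 (by
      intro S hS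
      simp only [if_neg hS])
    have := congrFun h Finset.univ
    simpa using this
  obtain ⟨θ, hθc, hθT, hθ⟩ := D.exists_theta hfst
  refine D.val_injective (D.ext hfst fun n => ?_)
  have h := fun f => D.crd_theta hx hθc hθT hθ f ((D.Q.T ^ n) D.q₀)
  rw [equi_zpow hθT, hθ] at h
  simp only [val_zpow, crd_zpow] at h
  exact (ext_inner_left ℂ h).symm

/-- D5 -/
theorem uniqCub : UniqCub D.Q.T s := by
  intro c hc c' hc' hcc
  obtain ⟨P, hP⟩ := exists_cpact D.isMin D.distalU hc
    (const_mem_Cub (T := D.Q.T) (ι := Fin (s + 1)) D.q₀)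
  have h1 := cpact_mem P hc'
  set c'' := cpact D.Q.T P c' with hc''
  have h2 : c'' = fun S : Finset (Fin (s + 1)) => if S = Finset.univ then c'' Finset.univ else D.q₀ := by
    funext S
    by_cases hS : S = Finset.univ
    · rw [if_pos hS, hS]
    · rw [if_neg hS]
      have h3 := congrFun hP S
      simp only [cpact] at h3
      rw [hcc S hS] at h3
      exact h3
  have h4 : c'' Finset.univ = D.q₀ := D.eq_q₀ (by rw [← h2]; exact h1)
  have h5 : c'' = cpact D.Q.T P c := by
    rw [hP, h2, h4]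
    funext S
    simp
  obtain ⟨R, hR⟩ := D.distalU.exists_cinv P
  rw [← (hR c).1, ← (hR c').1, ← h5]

end DCtx

end MP_e326dc_an
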