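import Pool.Agent.Lib.MP_e326dc_an.D.Main3

/-!
# MP_e326dc_an, part D: exactness (D6, D7) and Theorem D
-/

set_option autoImplicit false

open Filter Topology
open scoped ComplexConjugate

namespace MP_e326dc_an

attribute [local instance] Ultrafilter.add Ultrafilter.addSemigroup

namespace DCtx

variable {W : Set (ℤ → ℂ)} {H : Type} [NormedAddCommGroup H] [InnerProductSpace ℂ H]
  [CompleteSpace H] {s₀ s : ℕ} (D : DCtx W H s₀ s)

theorem metrizable_Q : TopologicalSpace.MetrizableSpace D.Q.X := by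
  have := D.met
  have : SecondCountableTopology D.P.X := by
    let := TopologicalSpace.metrizableSpaceMetric D.P.X
    infer_instance
  have : SecondCountableTopology D.Z := inferInstance
  have h1 : SecondCountableTopology (D.P.X × (ℤ → D.Z)) := inferInstance
  have h2 : SecondCountableTopology D.Y.X := h1
  have h3 : SecondCountableTopology (orbC D.Y.T D.x₀) := inferInstance
  have h4 : SecondCountableTopology D.Q.X := h3
  exact TopologicalSpace.metrizableSpace_of_t3_secondCountable D.Q.X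

theorem ord_Q : D.Q.Ord s := ⟨⟨D.q₀⟩, D.isMin, D.uniqCub⟩

theorem ordSeq (F : C(D.Y.X, ℂ)) : OrdSeq s (fun n : ℤ => F (D.val ((D.Q.T ^ n) D.q₀))) :=
  ⟨D.Q, D.metrizable_Q, D.ord_Q, D.q₀, ⟨fun z => F (D.val z), F.continuous.comp D.continuous_val⟩,
    fun _ => rfl⟩

/-- D6 -/
theorem null_diff (F : C(D.Y.X, ℂ)) :
    Null (fun n : ℤ => F ((D.Y.T ^ n) D.y₀) - F (D.val ((D.Q.T ^ n) D.q₀))) := by
  -- the square
  set sq : C(D.Y.X, ℂ) := ⟨fun z => ((‖F z‖ ^ 2 : ℝ) : ℂ),
    Complex.continuous_ofReal.comp (F.continuous.norm.pow 2)⟩ with hsq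
  obtain ⟨κ, hκ1, hκ2⟩ := D.exists_wlim sq
  -- the mixed product
  set φ : ℤ → ℂ := fun n => F ((D.Y.T ^ n) D.y₀) * conj (F (D.val ((D.Q.T ^ n) D.q₀))) with hφ
  have hφW : φ ∈ W := D.tame.mul _ (D.tame_y₀ F) _
    (D.tame.conj_mem _ (D.tame.ord s _ (D.ordSeq F)))
  obtain ⟨a, ha⟩ := D.tame.exists_wlim hφW
  have haκ : a = κ := by
    have h1 : ∀ ε : ℝ, 0 < ε → ‖a - κ‖ ≤ ε := by
      intro ε hε
      obtain ⟨N, hN⟩ := ha (ε / 2) (by positivity)
      obtain ⟨N', hN'⟩ := hκ2 D.q₀ (ε / 2) (by positivity)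
      set L := max N N'
      have t1 := hN' 0 L (le_max_right _ _)
      -- limit of the averages of φ along the idempotent
      have t2 : ‖avg (win 0 L) (fun n : ℤ => sq (D.val ((D.Q.T ^ n) D.q₀))) - a‖ ≤ ε / 2 := by
        have e1 : ∀ m : ℤ, avg (win m L) φ = avg (win 0 L) (fun n : ℤ =>
            F ((D.Y.T ^ n) ((D.Y.T ^ m) D.y₀)) * conj (F ((D.Y.T ^ n) ((D.Y.T ^ m) D.x₀)))) := by
          intro m
          have := avg_win_shift 0 L φ m
          rw [zero_add] at this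
          rw [← this]
          refine congrArg _ ?_
          funext n
          simp only [hφ]
          rw [val_zpow, val_q₀, zpow_add_apply, zpow_add_apply]
        have hlim : Tendsto (fun m : ℤ => avg (win m L) φ) pE
            (𝓝 (avg (win 0 L) (fun n : ℤ => F ((D.Y.T ^ n) D.x₀) * conj (F ((D.Y.T ^ n) D.x₀))))) := by
          simp_rw [e1]
          have c1 : ∀ (n : ℤ) (y : D.Y.X), Tendsto (fun m : ℤ => F ((D.Y.T ^ n) ((D.Y.T ^ m) y))) pE
              (𝓝 (F ((D.Y.T ^ n) (pact D.Y.T pE y)))) := by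
            intro n y
            exact ((F.continuous.comp (continuous_zpow D.Y.T n)).tendsto _).comp
              (tendsto_pact D.Y.T pE y)
          simp only [avg]
          refine Tendsto.const_smul (tendsto_finsetSum _ fun n _ => ?_) _
          have c2 := c1 n D.y₀
          have c3 := c1 n D.x₀
          rw [pact_x₀] at c3
          exact c2.mul ((Complex.continuous_conj.tendsto _).comp c3)
        have e2 : avg (win 0 L) (fun n : ℤ => sq (D.val ((D.Q.T ^ n) D.q₀))) =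
            avg (win 0 L) (fun n : ℤ => F ((D.Y.T ^ n) D.x₀) * conj (F ((D.Y.T ^ n) D.x₀))) := by
          refine congrArg _ ?_
          funext n
          rw [val_zpow, val_q₀]
          simp only [hsq, ContinuousMap.coe_mk]
          rw [Complex.mul_conj, Complex.normSq_eq_norm_sq]
        rw [e2]
        refine le_of_tendsto ((hlim.sub_const a).norm) (Filter.Eventually.of_forall fun m => ?_)
        exact hN m L (le_max_left _ _)
      have e : a - κ = -(avg (win 0 L) (fun n : ℤ => sq (D.val ((D.Q.T ^ n) D.q₀))) - a) +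
          (avg (win 0 L) (fun n : ℤ => sq (D.val ((D.Q.T ^ n) D.q₀))) - κ) := by ring
      rw [e]
      refine (norm_add_le _ _).trans ?_
      rw [norm_neg]
      linarith
    exact sub_eq_zero.1 (norm_le_zero_iff.1 (le_of_forall_pos_le_add (by simpa using h1)))
  rw [haκ] at ha
  refine null_of_sq ?_
  have h3 := (hκ1.re.add (hκ2 D.q₀).re).sub (ha.re.add ha.re)
  have e0 : κ.re + κ.re - (κ.re + κ.re) = 0 := by ring
  rw [e0] at h3
  have e1 : (fun n : ℤ => (sq ((D.Y.T ^ n) D.y₀)).re + (sq (D.val ((D.Q.T ^ n) D.q₀))).re -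
      ((φ n).re + (φ n).re)) =
      fun n : ℤ => ‖F ((D.Y.T ^ n) D.y₀) - F (D.val ((D.Q.T ^ n) D.q₀))‖ ^ 2 := by
    funext n
    simp only [hφ, hsq, ContinuousMap.coe_mk, Complex.ofReal_re]
    rw [← Complex.normSq_eq_norm_sq, ← Complex.normSq_eq_norm_sq, ← Complex.normSq_eq_norm_sq]
    simp only [Complex.normSq_apply, Complex.mul_re, Complex.sub_re, Complex.sub_im,
      Complex.conj_re, Complex.conj_im]
    ring
  rw [e1] at h3
  exact h3

theorem bdd_inner (f : H) : Bdd (fun n : ℤ => (inner ℂ f (D.u n) : ℂ)) := by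
  refine ⟨‖f‖, fun n => (norm_inner_le_norm _ _).trans ?_⟩
  exact mul_le_of_le_one_right (norm_nonneg _) (D.hu n)

/-- D7 -/
theorem ordNull (f : H) : OrdNull s (fun n : ℤ => (inner ℂ f (D.u n) : ℂ)) := by
  have hK1 : ∀ f' : H, OrdNull s (fun n : ℤ => (inner ℂ (D.K f') (D.u n) : ℂ)) := by
    intro f'
    refine ⟨D.bdd_inner _, _, D.ordSeq (D.crd f'), ?_⟩
    have h := D.null_diff (D.crd f')
    have e : (fun n : ℤ => (inner ℂ (D.K f') (D.u n) : ℂ) - D.crd f' (D.val ((D.Q.T ^ n) D.q₀))) =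
        fun n : ℤ => D.crd f' ((D.Y.T ^ n) D.y₀) - D.crd f' (D.val ((D.Q.T ^ n) D.q₀)) := by
      funext n
      rw [crd_zpow, vec_y₀, D.hK.symm]
    rw [e]; exact h
  have hK2 : ∀ f'' : H, D.K f'' = 0 → OrdNull s (fun n : ℤ => (inner ℂ f'' (D.u n) : ℂ)) := by
    intro f'' h0
    refine OrdNull.of_null s (D.bdd_inner _) (null_of_sq ?_)
    have := D.hK.sq_lim f''
    rwa [h0, inner_zero_right, Complex.zero_re] at this
  refine OrdNull.closed fun ε hε => ?_
  obtain ⟨f', f'', h0, hf⟩ := D.hK.decomp f hε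
  refine ⟨fun n => inner ℂ (D.K f' + f'') (D.u n), ?_, fun n => ?_⟩
  · have := (hK1 f').add (hK2 f'' h0)
    have e : (fun n : ℤ => (inner ℂ (D.K f' + f'') (D.u n) : ℂ)) =
        fun n => inner ℂ (D.K f') (D.u n) + inner ℂ f'' (D.u n) := by
      funext n; rw [inner_add_left]
    rw [e]; exact this
  · rw [← inner_sub_left]
    refine (norm_inner_le_norm _ _).trans ?_
    exact (mul_le_of_le_one_right (norm_nonneg _) (D.hu n)).trans hf

end DCtx

/-- **Theorem D** (the induction step). -/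
theorem theoremD {W : Set (ℤ → ℂ)} (hW : TameAlg W) {H : Type} [NormedAddCommGroup H]
    [InnerProductSpace ℂ H] [CompleteSpace H] {u : ℤ → H} (hu : ∀ n, ‖u n‖ ≤ 1)
    (hK : ∃ K : H →L[ℂ] H, CorrOp u K) {s₀ s : ℕ} (hs : s₀ ≤ s)
    (h2 : ∀ h : ℤ, OrdNull s₀ (fun n => inner ℂ (u n) (u (n + h))))
    (h3 : ∀ f : H, (fun n => (inner ℂ f (u n) : ℂ)) ∈ W)
    (h4 : ∀ c : ℤ → ℂ, Bdd c → CubeNull (Fin (s + 1)) c → WTendsto (fun n => c n • u n) 0)
    (f : H) : OrdNull s (fun n : ℤ => (inner ℂ f (u n) : ℂ)) := by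
  obtain ⟨K, hK⟩ := hK
  obtain ⟨P, met, ord, w, G, hG⟩ := OrdNull.joint (fun h : ℤ => gram_ordNull hu hK h2 h)
  exact DCtx.ordNull ⟨hW, u, hu, K, hK, P, met, ord, hs, w, G, hG, h3, h4⟩ f

end MP_e326dc_an
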