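import Pool.Agent.Lib.MP_e326dc_an.C.AU
import Pool.Agent.Lib.MP_e326dc_an.D.Main4
import Pool.Agent.Lib.MP_e326dc_an.Walsh.W15
import Pool.Agent.Lib.MP_e326dc_an.Walsh.Tame
import Pool.Agent.Lib.MP_e326dc_an.Walsh.W11

/-!
# MP_e326dc_an: multicorrelations along polynomials are sequences of finite order plus null sequences
-/

set_option autoImplicit false
set_option linter.unusedSectionVars false

namespace MP_e326dc_an

open Filter Topology MeasureTheory
open scoped ComplexConjugate ENNReal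

/-! ### polynomial maps -/

theorem PolyLE.comp_dom {A B G : Type*} [AddCommGroup A] [AddCommGroup B] [AddCommGroup G] (φ : B →+ A) :
    ∀ (n : ℕ) (p : A → G), PolyLE n p → PolyLE n (fun x => p (φ x))
  | 0, _, h => fun _ _ => h _ _
  | (n + 1), p, h => fun k => by
      have := PolyLE.comp_dom φ n _ (h (φ k))
      simp only [map_add]
      exact this

theorem exists_common_degree {A Ω : Type} [AddCommGroup A] (l : List ((ℤ → A) × (Ω → ℂ)))
    (h : ∀ pf ∈ l, ∃ d, PolyLE d pf.1) : ∃ d, ∀ pf ∈ l, PolyLE d pf.1 := by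
  induction l with
  | nil => exact ⟨0, by simp⟩
  | cons q l ih =>
    obtain ⟨d, hd⟩ := ih fun pf hpf => h pf (List.mem_cons_of_mem _ hpf)
    obtain ⟨d', hd'⟩ := h q List.mem_cons_self
    refine ⟨max d d', fun pf hpf => ?_⟩
    rcases List.mem_cons.1 hpf with rfl | hpf
    · exact hd'.mono (le_max_right _ _)
    · exact (hd pf hpf).mono (le_max_left _ _)

section
variable {A Ω : Type} [AddCommGroup A] [MeasurableSpace Ω] {μ : Measure Ω} [IsProbabilityMeasure μ]

theorem memLp_of_bdd {g : Ω → ℂ} (hg : Measurable g) {C : ℝ} (hb : ∀ x, ‖g x‖ ≤ C) : MemLp g 2 μ :=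
  MemLp.of_bound hg.aestronglyMeasurable C (Filter.Eventually.of_forall hb)

theorem inner_mk_uvec (T : MPAction A Ω μ) {l : List ((ℤ → A) × (Ω → ℂ))} (hl : GoodL l) {g : Ω → ℂ}
    (hg : MemLp g 2 μ) (n : ℤ) :
    (inner ℂ (HL.mk hg) (uvec T l n) : ℂ) = ∫ x, conj (g x) * uprod T l n x ∂μ := by
  rw [inner_eq_integral]
  refine integral_congr_ae ?_
  filter_upwards [HL.fn_mk hg, uvec_coe T hl n] with x h1 h2
  rw [h1, h2]

/-- inner products of bounded functions with the products are correlations -/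
theorem corr_inner_mk (T : MPAction A Ω μ) {l : List ((ℤ → A) × (Ω → ℂ))} (hl : GoodL l)
    (hd : ∀ pf ∈ l, ∃ d, PolyLE d pf.1) {g : Ω → ℂ} (hg : Measurable g) {C : ℝ} (hb : ∀ x, ‖g x‖ ≤ C) :
    Walsh.Corr (fun n : ℤ => (inner ℂ (HL.mk (memLp_of_bdd (μ := μ) hg hb)) (uvec T l n) : ℂ)) := by
  obtain ⟨d, hd⟩ := exists_common_degree l hd
  have h := Walsh.corr_of_mp (B := ℤ) T (d := d) ((fun _ => (0 : A), fun x => conj (g x)) :: l) (by
    intro x hx
    rcases List.mem_cons.1 hx with rfl | hx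
    · exact ⟨PolyLE.const _ _, Complex.continuous_conj.measurable.comp hg, C, fun x => by
        simpa using hb x⟩
    · exact ⟨hd x hx, (hl x hx).1, 1, (hl x hx).2⟩)
  have e : (fun n : ℤ => (inner ℂ (HL.mk (memLp_of_bdd (μ := μ) hg hb)) (uvec T l n) : ℂ)) =
      fun n => ∫ ω, (((fun _ => (0 : A), fun x => conj (g x)) :: l).map
        fun x : (ℤ → A) × (Ω → ℂ) => x.2 (T.T (x.1 n) ω)).prod ∂μ := by
    funext n
    rw [inner_mk_uvec T hl]
    refine integral_congr_ae (Filter.Eventually.of_forall fun x => ?_)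
    simp only [List.map_cons, List.prod_cons, T.T_zero]
    rfl
  rw [e]; exact h

/-- bounded functions are dense in `L²` -/
theorem exists_bdd_near (w : HL μ) {ε : ℝ} (hε : 0 < ε) :
    ∃ (g : Ω → ℂ) (hg : Measurable g) (C : ℝ) (hb : ∀ x, ‖g x‖ ≤ C),
      ‖w - HL.mk (memLp_of_bdd (μ := μ) hg hb)‖ ≤ ε := by
  have h2 : (2 : ℝ≥0∞) ≠ ∞ := by norm_num
  obtain ⟨g, hg1, hg2⟩ := MemLp.exists_simpleFunc_eLpNorm_sub_lt (HL.memLp w) h2
    (ε := ENNReal.ofReal ε) (by simpa using hε)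
  obtain ⟨C, hC⟩ := g.exists_forall_norm_le
  refine ⟨g, g.measurable, C, hC, ?_⟩
  have h3 : ‖w - HL.mk (memLp_of_bdd (μ := μ) g.measurable hC)‖ =
      (eLpNorm (w.fn - ⇑g) 2 μ).toReal := by
    have h4 : ‖w - HL.mk (memLp_of_bdd (μ := μ) g.measurable hC)‖ =
      ‖((show Lp ℂ 2 μ from w) - (memLp_of_bdd (μ := μ) g.measurable hC).toLp g : Lp ℂ 2 μ)‖ := rfl
    rw [h4, Lp.norm_def]
    congr 1
    refine eLpNorm_congr_ae ?_
    filter_upwards [Lp.coeFn_sub (show Lp ℂ 2 μ from w)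
      ((memLp_of_bdd (μ := μ) g.measurable hC).toLp g),
      MemLp.coeFn_toLp (memLp_of_bdd (μ := μ) g.measurable hC)] with x h5 h6
    rw [h5, Pi.sub_apply, h6]
    rfl
  rw [h3]
  refine ENNReal.toReal_le_of_le_ofReal hε.le hg1.le

/-- inner products with the products are tame -/
theorem inner_uvec_tame (T : MPAction A Ω μ) {l : List ((ℤ → A) × (Ω → ℂ))} (hl : GoodL l)
    (hd : ∀ pf ∈ l, ∃ d, PolyLE d pf.1) (w : HL μ) :
    (fun n : ℤ => (inner ℂ w (uvec T l n) : ℂ)) ∈ Walsh.tameW := by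
  refine Walsh.tameW_tame.closed _ fun ε hε => ?_
  obtain ⟨g, hg, C, hb, h⟩ := exists_bdd_near w hε
  refine ⟨_, Walsh.corr_mem_tameW (corr_inner_mk T hl hd hg hb), fun n => ?_⟩
  rw [← inner_sub_left]
  refine (norm_inner_le_norm _ _).trans ?_
  exact (mul_le_of_le_one_right (norm_nonneg _) (norm_uvec_le T hl n)).trans h

/-- the averages for the correlation operator converge -/
theorem ucauchy_inner_uvec (T : MPAction A Ω μ) {l : List ((ℤ → A) × (Ω → ℂ))} (hl : GoodL l)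
    (hd : ∀ pf ∈ l, ∃ d, PolyLE d pf.1) :
    UCauchy (fun v : Fin 2 → ℤ => ‖(inner ℂ (uvec T l (v 0)) (uvec T l (v 1)) : ℂ)‖ ^ 2) := by
  obtain ⟨d, hd⟩ := exists_common_degree l hd
  set L : List (((Fin 2 → ℤ) → A) × (Ω → ℂ)) :=
    l.map (fun pf => (fun v : Fin 2 → ℤ => pf.1 (v 0), fun x => conj (pf.2 x))) ++
      l.map (fun pf => (fun v : Fin 2 → ℤ => pf.1 (v 1), pf.2)) with hL
  have hc := Walsh.corr_of_mp (B := Fin 2 → ℤ) T (d := d) L (by
    intro x hx
    rw [hL, List.mem_append] at hx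
    rcases hx with hx | hx
    · obtain ⟨pf, hpf, rfl⟩ := List.mem_map.1 hx
      exact ⟨PolyLE.comp_dom (Pi.evalAddMonoidHom (fun _ : Fin 2 => ℤ) 0) d pf.1 (hd pf hpf),
        Complex.continuous_conj.measurable.comp (hl pf hpf).1, 1, fun x => by
          simpa using (hl pf hpf).2 x⟩
    · obtain ⟨pf, hpf, rfl⟩ := List.mem_map.1 hx
      exact ⟨PolyLE.comp_dom (Pi.evalAddMonoidHom (fun _ : Fin 2 => ℤ) 1) d pf.1 (hd pf hpf),
        (hl pf hpf).1, 1, (hl pf hpf).2⟩)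
  have e : (fun v : Fin 2 → ℤ => ∫ ω, (L.map fun x => x.2 (T.T (x.1 v) ω)).prod ∂μ) =
      fun v => (inner ℂ (uvec T l (v 0)) (uvec T l (v 1)) : ℂ) := by
    funext v
    rw [inner_eq_integral]
    refine integral_congr_ae ?_
    filter_upwards [uvec_coe T hl (v 0), uvec_coe T hl (v 1)] with x h1 h2
    rw [h1, h2, hL, List.map_append, List.prod_append, uprod, uprod, map_list_prod]
    simp only [List.map_map, Function.comp_def]
  rw [e] at hc
  have hu := Walsh.walsh_int _ (hc.mul hc.conj)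
  intro ε hε
  obtain ⟨N, hN⟩ := hu ε hε
  refine ⟨N, fun M M' S S' h1 h2 => ?_⟩
  refine le_trans ?_ (hN M M' S S' h1 h2)
  have e2 : ∀ t : Finset (Fin 2 → ℤ),
      avg t (fun v => (inner ℂ (uvec T l (v 0)) (uvec T l (v 1)) : ℂ) *
        conj (inner ℂ (uvec T l (v 0)) (uvec T l (v 1)) : ℂ)) =
      ((avg t (fun v => ‖(inner ℂ (uvec T l (v 0)) (uvec T l (v 1)) : ℂ)‖ ^ 2) : ℝ) : ℂ) := by
    intro t
    simp only [avg, Complex.mul_conj, Complex.normSq_eq_norm_sq, Complex.real_smul, smul_eq_mul]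
    push_cast
    rfl
  rw [e2, e2, ← Complex.ofReal_sub, Complex.norm_real]

/-- the statement proved by the PET induction -/
def ZP (T : MPAction A Ω μ) (s : ℕ) (F : List (ℤ → A)) : Prop :=
  (∀ p ∈ F, ∃ d, PolyLE d p) → AUF T s F ∧
    ∀ l : List ((ℤ → A) × (Ω → ℂ)), GoodL l → l.map Prod.fst = F → ∀ w : HL μ,
      OrdNull s (fun n : ℤ => (inner ℂ w (uvec T l n) : ℂ))

theorem ZP.mono (T : MPAction A Ω μ) {s : ℕ} {F : List (ℤ → A)} (h : ZP T s F) : ZP T (s + 1) F :=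
  fun hF => ⟨(h hF).1.mono T, fun l hl hlF w => ((h hF).2 l hl hlF w).mono (Nat.le_succ s)⟩

theorem ZP.nil (T : MPAction A Ω μ) : ZP T 0 [] := by
  refine fun _ => ⟨AUF.nil T, fun l _ hlF w => ?_⟩
  have hl0 : l = [] := List.map_eq_nil_iff.1 hlF
  subst hl0
  exact OrdNull.const 0 (inner ℂ w (uvec T [] 0) : ℂ)

theorem ZP.const (T : MPAction A Ω μ) {s : ℕ} {F : List (ℤ → A)} (h : ZP T s (noConst F)) :
    ZP T s F := by
  intro hF
  obtain ⟨h1, h2⟩ := h fun p hp => hF p (List.mem_of_mem_filter hp)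
  refine ⟨h1.const T, fun l hl hlF w => ?_⟩
  obtain ⟨g, hg1, hg2, hg3⟩ := exists_const_factor T hl
  have hm : MemLp (fun x => conj (g x) * w.fn x) 2 μ := by
    refine MemLp.of_le (HL.memLp w)
      (((Complex.continuous_conj.measurable.comp hg1).aestronglyMeasurable).mul
        (HL.memLp w).aestronglyMeasurable) (Filter.Eventually.of_forall fun x => ?_)
    rw [norm_mul, RCLike.norm_conj]
    exact mul_le_of_le_one_left (norm_nonneg _) (hg2 x)
  have h3 := h2 (ncL l) hl.ncL (by rw [ncL_fst, hlF]) (HL.mk hm)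
  have e : (fun n : ℤ => (inner ℂ w (uvec T l n) : ℂ)) =
      fun n => (inner ℂ (HL.mk hm) (uvec T (ncL l) n) : ℂ) := by
    funext n
    rw [inner_mk_uvec T hl.ncL, inner_eq_integral]
    refine integral_congr_ae ?_
    filter_upwards [uvec_coe T hl n] with x h4
    rw [h4, hg3]
    simp only [map_mul, Complex.conj_conj]
    ring
  rw [e]; exact h3

theorem ZP.step (T : MPAction A Ω μ) {s : ℕ} {F : List (ℤ → A)} {b : ℤ → A} (hb : b ∈ F)
    (h : ∀ k : ℤ, ZP T s (petStep F b k)) : ZP T (s + 1) F := by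
  intro hF
  obtain ⟨db, hdb⟩ := hF b hb
  have hF' : ∀ k : ℤ, ∀ p ∈ petStep F b k, ∃ d, PolyLE d p := by
    intro k p hp
    rw [petStep, List.mem_append] at hp
    rcases hp with hp | hp
    · obtain ⟨q, hq, rfl⟩ := List.mem_map.1 hp
      obtain ⟨d, hd⟩ := hF q hq
      exact ⟨max d db, (hd.mono (le_max_left _ _)).sub (hdb.mono (le_max_right _ _))⟩
    · obtain ⟨q, hq, rfl⟩ := List.mem_map.1 hp
      obtain ⟨d, hd⟩ := hF q hq
      exact ⟨max d db, ((hd.mono (le_max_left _ _)).shift_arg k).sub (hdb.mono (le_max_right _ _))⟩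
  have hA : AUF T (s + 1) F := AUF.step T b fun k => (h k (hF' k)).1
  refine ⟨hA, fun l hl hlF w => ?_⟩
  have hd : ∀ pf ∈ l, ∃ d, PolyLE d pf.1 := by
    intro pf hpf
    exact hF pf.1 (by rw [← hlF]; exact List.mem_map_of_mem hpf)
  refine theoremD Walsh.tameW_tame (norm_uvec_le T hl) (exists_corrOp (norm_uvec_le T hl)
    (ucauchy_inner_uvec T hl hd)) (Nat.le_succ s) ?_ (inner_uvec_tame T hl hd) ?_ w
  · intro k
    have h1 := (h k (hF' k)).2 (stepL l b k) (hl.stepL b k) (by rw [stepL_fst, hlF]) (oneL μ)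
    have e : (fun n : ℤ => (inner ℂ (uvec T l n) (uvec T l (n + k)) : ℂ)) =
        fun n => conj (inner ℂ (oneL μ) (uvec T (stepL l b k) n) : ℂ) := by
      funext n
      rw [← inner_uvec T hl b k n, inner_conj_symm]
    rw [e]
    exact h1.conj
  · intro c hc hn
    exact hA.wtendsto T hl hlF hc hn

/-- products along polynomials: weak sequences are of finite order up to null sequences -/
theorem exists_ZP (T : MPAction A Ω μ) (D K : ℕ) : ∃ s, ∀ F : List (ℤ → A), F.length ≤ K →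
    (∀ p ∈ F, PolyLE D p) → ZP T s F :=
  pet_principle (ZP T) (fun _ _ h => h.mono T) (ZP.nil T) (fun _ _ h => h.const T)
    (fun _ _ _ hb _ h => ZP.step T hb h) D K

/-- **Theorem (Z).** Multicorrelations along polynomial maps are sequences of finite order plus null
sequences. -/
theorem ordNull_multicorr (T : MPAction A Ω μ) {m d : ℕ} (p : Fin m → ℤ → A)
    (hp : ∀ i, PolyLE d (p i)) (f₀ : Ω → ℂ) (f : Fin m → Ω → ℂ) (hf₀ : Measurable f₀)
    (hf : ∀ i, Measurable (f i)) {C : ℝ} (hC₀ : ∀ x, ‖f₀ x‖ ≤ C) (hC : ∀ i x, ‖f i x‖ ≤ C) :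
    ∃ s, OrdNull s (fun n : ℤ => ∫ x, f₀ x * ∏ i, f i (T.T (p i n) x) ∂μ) := by
  set R : ℝ := max C 1 with hR
  have hR0 : 0 < R := lt_of_lt_of_le one_pos (le_max_right _ _)
  have hRC : C ≤ R := le_max_left _ _
  set l : List ((ℤ → A) × (Ω → ℂ)) :=
    List.ofFn fun i => (p i, fun x => ((R⁻¹ : ℝ) : ℂ) * f i x) with hl'
  have hl : GoodL l := by
    intro pf hpf
    rw [hl', List.mem_ofFn] at hpf
    obtain ⟨i, rfl⟩ := hpf
    refine ⟨(hf i).const_mul _, fun x => ?_⟩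
    simp only
    rw [norm_mul, Complex.norm_real, norm_inv, Real.norm_of_nonneg hR0.le, inv_mul_le_one₀ hR0]
    exact (hC i x).trans hRC
  obtain ⟨s, hs⟩ := exists_ZP T d m
  have hlF : ∀ q ∈ l.map Prod.fst, PolyLE d q := by
    intro q hq
    obtain ⟨pf, hpf, rfl⟩ := List.mem_map.1 hq
    rw [hl', List.mem_ofFn] at hpf
    obtain ⟨i, rfl⟩ := hpf
    exact hp i
  have h1 := (hs (l.map Prod.fst) (by simp [hl']) hlF (fun q hq => ⟨d, hlF q hq⟩)).2 l hl rfl
    (HL.mk (memLp_of_bdd (μ := μ) (g := fun x => conj (f₀ x))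
      (Complex.continuous_conj.measurable.comp hf₀) (C := C) (fun x => by simpa using hC₀ x)))
  have h2 := (OrdNull.const s ((R ^ m : ℝ) : ℂ)).mul h1
  refine ⟨s, ?_⟩
  have e : (fun n : ℤ => ∫ x, f₀ x * ∏ i, f i (T.T (p i n) x) ∂μ) = fun n => ((R ^ m : ℝ) : ℂ) *
      (inner ℂ (HL.mk (memLp_of_bdd (μ := μ) (g := fun x => conj (f₀ x))
      (Complex.continuous_conj.measurable.comp hf₀) (C := C) (fun x => by simpa using hC₀ x)))
        (uvec T l n) : ℂ) := by
    funext n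
    rw [inner_mk_uvec T hl, ← integral_const_mul]
    refine integral_congr_ae (Filter.Eventually.of_forall fun x => ?_)
    simp only [Complex.conj_conj]
    have e1 : uprod T l n x = ∏ i, (((R⁻¹ : ℝ) : ℂ) * f i (T.T (p i n) x)) := by
      rw [uprod, hl', List.map_ofFn, List.prod_ofFn]
      rfl
    rw [e1, Finset.prod_mul_distrib, Finset.prod_const, Finset.card_univ, Fintype.card_fin]
    have e2 : ((R ^ m : ℝ) : ℂ) * (((R⁻¹ : ℝ) : ℂ)) ^ m = 1 := by
      rw [← Complex.ofReal_pow, ← Complex.ofReal_mul, inv_pow, mul_inv_cancel₀ (by positivity)]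
      simp
    calc f₀ x * ∏ i, f i (T.T (p i n) x) = 1 * (f₀ x * ∏ i, f i (T.T (p i n) x)) := by rw [one_mul]
      _ = _ := by rw [← e2]; ring
  rw [e]; exact h2

end

end MP_e326dc_an
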